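import Mathlib.Tactic.ToAdditive
import Mathlib.Tactic.Common

set_option autoImplicit false

namespace Pool.Agent.MP_feb289_co

/-- a pair `(a, b)` stands for `a + b w` with `w ^ 2 = -1` in characteristic `11` -/
abbrev F : Type := ℕ × ℕ

/-- vectors with three entries -/
abbrev V : Type := F × F × F

def fadd (a b : F) : F := ((a.1 + b.1) % 11, (a.2 + b.2) % 11)

def fmul (a b : F) : F := ((a.1 * b.1 + 10 * (a.2 * b.2)) % 11, (a.1 * b.2 + a.2 * b.1) % 11)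

def fsub (a b : F) : F := ((a.1 + 10 * b.1) % 11, (a.2 + 10 * b.2) % 11)

def isZ (a : F) : Bool := (a.1 % 11 == 0) && (a.2 % 11 == 0)

def vcr (a b : V) : V :=
  (fsub (fmul a.2.1 b.2.2) (fmul a.2.2 b.2.1), fsub (fmul a.2.2 b.1) (fmul a.1 b.2.2),
    fsub (fmul a.1 b.2.1) (fmul a.2.1 b.1))

def vdot (a b : V) : F := fadd (fadd (fmul a.1 b.1) (fmul a.2.1 b.2.1)) (fmul a.2.2 b.2.2)

def vZ (a : V) : Bool := isZ a.1 && isZ a.2.1 && isZ a.2.2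

def ev2 : ℕ → List F → F → F
  | _, [], _ => (0, 0)
  | 0, c :: _, _ => c
  | d + 1, c :: cs, y => fadd c (fmul y (ev2 d cs y))

def ev3 : ℕ → List (List F) → F → F → F
  | _, [], _, _ => (0, 0)
  | 0, r :: _, _, y => ev2 0 r y
  | d + 1, r :: rs, x, y => fadd (ev2 (d + 1) r y) (fmul x (ev3 d rs x y))

/-- the free realization, over the field with 121 elements -/
def tabA : List V :=
  [
    ((0, 0), (0, 0), (1, 0)), ((0, 0), (1, 0), (0, 0)), ((0, 0), (1, 0), (10, 2)),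
    ((0, 0), (1, 0), (5, 7)), ((0, 0), (1, 0), (2, 4)), ((0, 0), (1, 0), (2, 6)),
    ((0, 0), (1, 0), (10, 0)), ((1, 0), (0, 0), (0, 0)), ((1, 0), (0, 0), (4, 7)),
    ((1, 0), (0, 0), (2, 4)), ((1, 0), (0, 0), (0, 6)), ((1, 0), (0, 0), (1, 6)),
    ((1, 0), (0, 0), (10, 0)), ((1, 0), (8, 6), (2, 5)), ((1, 0), (2, 10), (10, 5)),
    ((1, 0), (10, 5), (2, 10)), ((1, 0), (10, 5), (0, 6)), ((1, 0), (4, 7), (0, 0)),
    ((1, 0), (9, 7), (0, 6)), ((1, 0), (2, 4), (0, 0)), ((1, 0), (0, 6), (0, 0)),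
    ((1, 0), (0, 6), (10, 5)), ((1, 0), (0, 6), (9, 7)), ((1, 0), (1, 6), (0, 0)),
    ((1, 0), (2, 5), (8, 6)), ((1, 0), (10, 0), (0, 0)), ((1, 0), (10, 0), (10, 0))]

/-- the non-free realization, over the field with 11 elements -/
def tabB : List V :=
  [
    ((0, 0), (0, 0), (1, 0)), ((0, 0), (1, 0), (0, 0)), ((0, 0), (1, 0), (2, 0)),
    ((0, 0), (1, 0), (5, 0)), ((0, 0), (1, 0), (6, 0)), ((0, 0), (1, 0), (9, 0)),
    ((0, 0), (1, 0), (10, 0)), ((1, 0), (0, 0), (0, 0)), ((1, 0), (0, 0), (4, 0)),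
    ((1, 0), (0, 0), (6, 0)), ((1, 0), (0, 0), (7, 0)), ((1, 0), (0, 0), (8, 0)),
    ((1, 0), (0, 0), (10, 0)), ((1, 0), (1, 0), (9, 0)), ((1, 0), (2, 0), (3, 0)),
    ((1, 0), (3, 0), (2, 0)), ((1, 0), (3, 0), (7, 0)), ((1, 0), (4, 0), (0, 0)),
    ((1, 0), (5, 0), (7, 0)), ((1, 0), (6, 0), (0, 0)), ((1, 0), (7, 0), (0, 0)),
    ((1, 0), (7, 0), (3, 0)), ((1, 0), (7, 0), (5, 0)), ((1, 0), (8, 0), (0, 0)),
    ((1, 0), (9, 0), (1, 0)), ((1, 0), (10, 0), (0, 0)), ((1, 0), (10, 0), (10, 0))]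

/-- base points on the lines of the free realization -/
def tabP : List (F × F) :=
  [
    ((0, 0), (0, 0)), ((0, 0), (0, 0)), ((0, 0), (1, 9)), ((0, 0), (6, 4)), ((0, 0), (9, 7)),
    ((0, 0), (9, 5)), ((0, 0), (1, 0)), ((0, 0), (0, 0)), ((7, 4), (0, 0)), ((9, 7), (0, 0)),
    ((0, 5), (0, 0)), ((10, 5), (0, 0)), ((1, 0), (0, 0)), ((9, 6), (0, 0)), ((1, 6), (0, 0)),
    ((9, 1), (0, 0)), ((0, 5), (0, 0)), ((0, 0), (0, 0)), ((0, 5), (0, 0)), ((0, 0), (0, 0)),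
    ((0, 0), (0, 0)), ((1, 6), (0, 0)), ((2, 4), (0, 0)), ((0, 0), (0, 0)), ((3, 5), (0, 0)),
    ((0, 0), (0, 0)), ((1, 0), (0, 0))]

/-- coefficient table of a component of a basic derivation -/
def f1 : List (List F) :=
  [
   [(0, 0), (0, 0), (0, 0), (0, 0), (0, 0), (0, 0), (0, 0), (0, 0), (0, 0), (0, 0), (0, 0),
    (0, 0), (0, 0), (0, 0)],
   [(4, 5), (0, 7), (4, 7), (9, 5), (10, 4), (6, 6), (1, 3), (4, 5), (0, 0), (0, 0), (0, 0),
    (0, 0), (0, 0)],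
   [(7, 8), (7, 6), (3, 9), (1, 0), (6, 0), (6, 0), (10, 5), (10, 7), (0, 0), (0, 0), (0, 0),
    (0, 0)],
   [(10, 4), (9, 7), (7, 1), (5, 6), (0, 9), (7, 5), (6, 9), (9, 6), (0, 0), (0, 0), (0, 0)],
   [(6, 6), (9, 0), (5, 7), (9, 2), (10, 4), (10, 8), (4, 4), (2, 2), (0, 0), (0, 0)],
   [(7, 3), (9, 7), (2, 0), (6, 6), (6, 5), (6, 4), (5, 9), (2, 1), (0, 0)],
   [(5, 9), (4, 6), (3, 0), (8, 6), (6, 8), (10, 5), (1, 0), (6, 1)],
   [(5, 3), (10, 0), (6, 5), (5, 1), (2, 5), (7, 8), (6, 3)],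
   [(3, 8), (1, 1), (10, 4), (10, 4), (1, 1), (3, 8)],
   [(3, 8), (10, 3), (7, 3), (10, 3), (3, 8)],
   [(3, 0), (3, 0), (3, 0), (3, 0)],
   [(5, 8), (9, 3), (5, 8)],
   [(6, 4), (6, 4)],
   [(2, 0)]]

/-- coefficient table of a component of a basic derivation -/
def g1 : List (List F) :=
  [
   [(0, 0), (4, 5), (0, 7), (4, 7), (9, 5), (10, 4), (2, 1), (0, 0), (9, 10), (1, 7), (2, 6),
    (7, 4), (0, 4), (7, 6)],
   [(0, 0), (7, 8), (7, 6), (3, 9), (1, 0), (7, 4), (7, 6), (4, 5), (4, 7), (10, 0), (8, 2),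
    (4, 5), (4, 3)],
   [(0, 0), (10, 4), (9, 7), (7, 1), (7, 0), (5, 0), (0, 0), (6, 0), (4, 0), (4, 10), (2, 4),
    (1, 7)],
   [(0, 0), (6, 6), (9, 0), (3, 5), (5, 9), (0, 7), (0, 4), (6, 2), (8, 6), (2, 0), (5, 5)],
   [(0, 0), (7, 3), (7, 6), (8, 2), (0, 2), (0, 0), (0, 9), (3, 9), (4, 5), (4, 8)],
   [(0, 0), (10, 8), (3, 6), (4, 6), (2, 9), (9, 2), (7, 5), (8, 5), (1, 3)],
   [(0, 0), (10, 0), (3, 3), (4, 0), (0, 0), (7, 0), (8, 8), (1, 0)],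
   [(0, 0), (0, 0), (0, 0), (0, 0), (0, 0), (0, 0), (0, 0)],
   [(0, 0), (0, 0), (0, 0), (0, 0), (0, 0), (0, 0)],
   [(0, 0), (0, 0), (0, 0), (0, 0), (0, 0)],
   [(0, 0), (0, 0), (0, 0), (0, 0)],
   [(0, 0), (0, 0), (0, 0)],
   [(0, 0), (0, 0)],
   [(0, 0)]]

/-- coefficient table of a component of a basic derivation -/
def f2 : List (List F) :=
  [
   [(0, 0), (0, 0), (0, 0), (0, 0), (0, 0), (0, 0), (0, 0), (0, 0), (0, 0), (0, 0), (0, 0),
    (0, 0), (0, 0), (0, 0)],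
   [(2, 0), (0, 9), (8, 5), (9, 4), (5, 0), (5, 0), (2, 9), (5, 7), (0, 0), (0, 0), (0, 0),
    (0, 0), (0, 0)],
   [(9, 1), (3, 7), (3, 5), (0, 2), (9, 0), (7, 6), (3, 10), (7, 1), (0, 0), (0, 0), (0, 0),
    (0, 0)],
   [(5, 2), (5, 9), (10, 2), (4, 2), (0, 5), (7, 9), (9, 2), (6, 2), (0, 0), (0, 0), (0, 0)],
   [(8, 2), (10, 5), (0, 2), (5, 4), (4, 10), (6, 9), (9, 3), (2, 9), (0, 0), (0, 0)],
   [(9, 2), (9, 3), (1, 4), (7, 3), (2, 8), (1, 1), (1, 2), (1, 9), (0, 0)],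
   [(8, 3), (2, 0), (9, 1), (7, 6), (7, 5), (2, 4), (6, 8), (1, 5)],
   [(3, 10), (7, 9), (1, 8), (3, 3), (1, 8), (7, 9), (3, 10)],
   [(8, 6), (3, 3), (0, 10), (0, 2), (10, 0), (9, 6)],
   [(6, 8), (10, 3), (6, 0), (10, 3), (6, 8)],
   [(10, 4), (9, 6), (9, 6), (10, 4)],
   [(8, 1), (9, 8), (8, 1)],
   [(10, 4), (10, 4)],
   [(2, 1)]]

/-- coefficient table of a component of a basic derivation -/
def g2 : List (List F) :=
  [
   [(0, 0), (2, 0), (0, 9), (8, 5), (9, 4), (5, 0), (0, 4), (0, 0), (0, 7), (6, 0), (2, 7),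
    (3, 6), (0, 2), (9, 0)],
   [(0, 0), (9, 1), (3, 7), (3, 5), (0, 2), (2, 10), (4, 7), (7, 4), (9, 1), (0, 9), (8, 6),
    (8, 4), (2, 10)],
   [(0, 0), (5, 2), (5, 9), (10, 2), (9, 0), (2, 3), (0, 0), (9, 8), (2, 0), (1, 9), (6, 2),
    (6, 9)],
   [(0, 0), (8, 2), (10, 5), (9, 4), (7, 1), (9, 1), (2, 10), (4, 10), (2, 7), (1, 6), (3, 9)],
   [(0, 0), (9, 2), (8, 5), (0, 2), (6, 2), (0, 0), (5, 9), (0, 9), (3, 6), (2, 9)],
   [(0, 0), (7, 9), (7, 3), (7, 8), (0, 1), (0, 10), (4, 3), (4, 8), (4, 2)],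
   [(0, 0), (0, 0), (0, 0), (0, 0), (0, 0), (0, 0), (0, 0), (0, 0)],
   [(0, 0), (10, 0), (4, 3), (0, 8), (0, 3), (7, 8), (1, 0)],
   [(0, 0), (0, 0), (0, 0), (0, 0), (0, 0), (0, 0)],
   [(0, 0), (0, 0), (0, 0), (0, 0), (0, 0)],
   [(0, 0), (0, 0), (0, 0), (0, 0)],
   [(0, 0), (0, 0), (0, 0)],
   [(0, 0), (0, 0)],
   [(0, 0)]]

/-- twelve lines meeting `z = 0` in different points -/
def tabE : List ℕ := [1, 7, 13, 14, 15, 17, 18, 19, 20, 23, 24, 25]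

def rowA (i : ℕ) : V := tabA.getD i ((0, 0), (0, 0), (0, 0))

def rowB (i : ℕ) : V := tabB.getD i ((0, 0), (0, 0), (0, 0))

def rowP (i : ℕ) : F × F := tabP.getD i ((0, 0), (0, 0))

def rowE (k : ℕ) : ℕ := tabE.getD k 0

/-- the sample parameters on a line -/
def par (k : ℕ) : F := (k % 11, k / 11)

def chkTriple (a b : V) : Bool :=
  (List.range 27).all fun k => isZ (vdot (rowA k) a) == isZ (vdot (rowB k) b)

def chkPair (i j : ℕ) : Bool :=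
  (i == j || (!vZ (vcr (rowA i) (rowA j)) && !vZ (vcr (rowB i) (rowB j)))) &&
    chkTriple (vcr (rowA i) (rowA j)) (vcr (rowB i) (rowB j))

def chkAt (a : V) (f g : List (List F)) (x y : F) : Bool :=
  isZ (fadd (fmul a.1 (ev3 13 f x y)) (fmul a.2.1 (ev3 13 g x y)))

def chkLine (a : V) (p : F × F) (f g : List (List F)) : Bool :=
  !(isZ a.1 && isZ a.2.1) && isZ (fadd (fadd (fmul a.1 p.1) (fmul a.2.1 p.2)) a.2.2) &&
    (List.range 14).all fun k =>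
      chkAt a f g (fadd p.1 (fmul (par k) a.2.1)) (fsub p.2 (fmul (par k) a.1))

theorem chk_pairs :
    ((List.range 27).all fun i => (List.range 27).all fun j => chkPair i j) = true := by
  decide +kernel

theorem chk_lines1 :
    ((List.range 27).all fun i => i == 0 || chkLine (rowA i) (rowP i) f1 g1) = true := by
  decide +kernel

theorem chk_lines2 :
    ((List.range 27).all fun i => i == 0 || chkLine (rowA i) (rowP i) f2 g2) = true := by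
  decide +kernel

theorem chk_par : ((List.range 14).all fun k => (List.range 14).all fun l =>
    k == l || !isZ (fsub (par k) (par l))) = true := by
  decide +kernel

theorem chk_det : isZ (fsub (fmul (ev3 13 f1 (2, 0) (3, 0)) (ev3 13 g2 (2, 0) (3, 0)))
    (fmul (ev3 13 g1 (2, 0) (3, 0)) (ev3 13 f2 (2, 0) (3, 0)))) = false := by
  decide +kernel

theorem chk_rows : ((List.range 27).all fun i => !vZ (rowA i) && !vZ (rowB i) &&
    (rowB i).1.2 == 0 && (rowB i).2.1.2 == 0 && (rowB i).2.2.2 == 0 &&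
    !isZ (vdot (rowB i) ((1, 0), (2, 0), (5, 0)))) = true := by
  decide +kernel

theorem chk_dirs : ((List.range 12).all fun k => decide (rowE k < 27) &&
    !(isZ (rowB (rowE k)).1 && isZ (rowB (rowE k)).2.1) &&
    (List.range 12).all fun l => k == l ||
      !isZ (fsub (fmul (rowB (rowE k)).1 (rowB (rowE l)).2.1)
        (fmul (rowB (rowE k)).2.1 (rowB (rowE l)).1))) = true := by
  decide +kernel

end Pool.Agent.MP_feb289_co
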