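import Pool.Agent.MP_feb289_co.Model

-- ======== part 0: formerly Pool.Agent.MP_feb289_co.General
section MrgPart0

set_option autoImplicit false

namespace Pool.Agent.MP_feb289_co.Gen

open MvPolynomial Matrix

variable {K : Type} [Field K] {σ : Type} [Fintype σ]

/-- a derivation, given by its coefficients, applied to a linear form -/
noncomputable def gapp (a : σ → K) (θ : σ → MvPolynomial σ K) : MvPolynomial σ K :=
  ∑ j, C (a j) * θ j

/-- the linear form with coefficients `a` -/
noncomputable def glin (a : σ → K) : MvPolynomial σ K := gapp a X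

theorem eval_glin (a v : σ → K) : eval v (glin a) = a ⬝ᵥ v := by
  simp [glin, gapp, dotProduct]

theorem glin_hom (a : σ → K) : (glin a).IsHomogeneous 1 :=
  IsHomogeneous.sum _ _ _ fun _ _ => isHomogeneous_C_mul_X _ _

theorem exists_dot_one' [DecidableEq σ] {a : σ → K} (ha : a ≠ 0) : ∃ u : σ → K, a ⬝ᵥ u = 1 := by
  obtain ⟨k, hk⟩ := Function.ne_iff.1 ha
  refine ⟨Pi.single k (a k)⁻¹, ?_⟩
  rw [dotProduct_single]
  exact mul_inv_cancel₀ hk

theorem glin_ne_zero {a : σ → K} (ha : a ≠ 0) : glin a ≠ 0 := by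
  classical
  obtain ⟨u, hu⟩ := exists_dot_one' ha
  intro h
  have := eval_glin a u
  rw [h, hu, map_zero] at this
  exact zero_ne_one this

theorem smul_of_ker_le' {a b : σ → K} (ha : a ≠ 0)
    (h : ∀ v, a ⬝ᵥ v = 0 → b ⬝ᵥ v = 0) : ∃ c : K, b = c • a := by
  classical
  obtain ⟨u, hu⟩ := exists_dot_one' ha
  refine ⟨b ⬝ᵥ u, funext fun k => ?_⟩
  have h1 := h (Pi.single k 1 - a k • u) (by
    rw [dotProduct_sub, dotProduct_smul, dotProduct_single, hu]; simp)
  rw [dotProduct_sub, dotProduct_smul, dotProduct_single] at h1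
  simp only [mul_one, smul_eq_mul] at h1
  simp only [Pi.smul_apply, smul_eq_mul]
  linear_combination h1

/-- projection onto the hyperplane along `u` -/
noncomputable def proj (a u : σ → K) : MvPolynomial σ K →ₐ[K] MvPolynomial σ K :=
  aeval (fun i => X i - C (u i) * glin a)

theorem dvd_iff_proj {a u : σ → K} (hu : a ⬝ᵥ u = 1) (f : MvPolynomial σ K) :
    glin a ∣ f ↔ proj a u f = 0 := by
  have h1 : proj a u (glin a) = 0 := by
    have hu' : (∑ j, C (a j) * C (u j) : MvPolynomial σ K) = 1 := by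
      simp only [← C_mul]
      rw [← map_sum]
      exact (congrArg C hu).trans C_1
    have hl : glin a = ∑ j, C (a j) * X j := rfl
    conv_lhs => rw [hl]
    simp only [proj, map_sum, map_mul, aeval_C, aeval_X, algebraMap_eq, mul_sub,
      Finset.sum_sub_distrib, ← mul_assoc]
    rw [← Finset.sum_mul, hu', ← hl]; ring
  have h2 : ∀ f, glin a ∣ f - proj a u f := by
    intro f
    induction f using MvPolynomial.induction_on with
    | C r => simp [proj]
    | add p q hp hq =>
      rw [map_add, add_sub_add_comm]; exact dvd_add hp hq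
    | mul_X p i hp =>
      have : p * X i - proj a u (p * X i) =
          (p - proj a u p) * X i + glin a * (proj a u p * C (u i)) := by
        simp only [proj, map_mul, aeval_X]; ring
      rw [this]
      exact dvd_add (hp.mul_right _) (dvd_mul_right _ _)
  constructor
  · rintro ⟨g, rfl⟩
    rw [map_mul, h1, zero_mul]
  · intro h
    simpa [h] using h2 f

theorem glin_prime {a : σ → K} (ha : a ≠ 0) : Prime (glin a) := by
  classical
  obtain ⟨u, hu⟩ := exists_dot_one' ha
  refine ⟨glin_ne_zero ha, fun h => ?_, fun f g h => ?_⟩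
  · have := (dvd_iff_proj hu 1).1 h.dvd
    simp at this
  · rw [dvd_iff_proj hu, map_mul, mul_eq_zero] at h
    rwa [dvd_iff_proj hu, dvd_iff_proj hu]

theorem map_glin {L : Type} [Field L] (φ : K →+* L) (a : σ → K) :
    map φ (glin a) = glin (fun j => φ (a j)) := by
  simp [glin, gapp]

/-- divisibility by a linear form descends along a field extension -/
theorem dvd_of_map {L : Type} [Field L] (φ : K →+* L) {a : σ → K} (ha : a ≠ 0)
    {f : MvPolynomial σ K} (h : glin (fun j => φ (a j)) ∣ map φ f) : glin a ∣ f := by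
  classical
  obtain ⟨u, hu⟩ := exists_dot_one' ha
  have hu' : (fun j => φ (a j)) ⬝ᵥ (fun j => φ (u j)) = 1 := by
    have := congrArg φ hu
    simpa [dotProduct] using this
  rw [dvd_iff_proj hu'] at h
  rw [dvd_iff_proj hu]
  have h1 : ∀ g : MvPolynomial σ K, map φ (proj a u g) =
      proj (fun j => φ (a j)) (fun j => φ (u j)) (map φ g) := by
    intro g
    induction g using MvPolynomial.induction_on with
    | C r => simp [proj]
    | add p q hp hq => simp only [map_add, hp, hq]
    | mul_X p i hp =>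
      rw [map_mul, map_mul, hp, map_mul, map_mul]
      simp [proj, map_glin]
  apply map_injective φ φ.injective
  rw [h1, h, map_zero]

theorem prod_glin_dvd {ι : Type} [Fintype ι] (a : ι → σ → K) (h0 : ∀ i, a i ≠ 0)
    (h : ∀ i j, i ≠ j → ∀ c : K, a i ≠ c • a j) {f : MvPolynomial σ K}
    (hf : ∀ i, glin (a i) ∣ f) : ∏ i, glin (a i) ∣ f := by
  apply Fintype.prod_dvd_of_isRelPrime _ hf
  intro i j hij
  refine ((glin_prime (h0 i)).irreducible.isRelPrime_iff_not_dvd).2 fun hd => ?_
  obtain ⟨c, hc⟩ := smul_of_ker_le' (b := a j) (h0 i) (fun v hv => by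
    obtain ⟨g, hg⟩ : glin (a i) ∣ glin (a j) := hd
    rw [← eval_glin, hg, map_mul, eval_glin, hv, zero_mul])
  exact h j i hij.symm c hc

omit [Fintype σ] in
theorem eq_C_of_hom' {f g h : MvPolynomial σ K} {d : ℕ} (hf : f.IsHomogeneous d)
    (hg : g.IsHomogeneous d) (hf0 : f ≠ 0) (e : f = g * h) : ∃ c : K, c ≠ 0 ∧ h = C c := by
  have hg0 : g ≠ 0 := by rintro rfl; simp [e] at hf0
  have hh0 : h ≠ 0 := by rintro rfl; simp [e] at hf0
  have h1 := totalDegree_mul_of_isDomain hg0 hh0
  rw [← e, hf.totalDegree hf0, hg.totalDegree hg0] at h1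
  have h2 : h.totalDegree = 0 := by omega
  rw [totalDegree_eq_zero_iff_eq_C] at h2
  refine ⟨coeff 0 h, fun h3 => hh0 ?_, h2⟩
  rw [h2, h3, C_0]

variable {n : ℕ}

/-- the module of logarithmic derivations, in coordinates -/
noncomputable def GD (A : Fin n → σ → K) : Submodule (MvPolynomial σ K) (σ → MvPolynomial σ K) where
  carrier := {θ | ∀ i, glin (A i) ∣ gapp (A i) θ}
  add_mem' := by
    intro θ η h1 h2 i
    have : gapp (A i) (θ + η) = gapp (A i) θ + gapp (A i) η := by
      simp [gapp, mul_add, Finset.sum_add_distrib]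
    rw [this]; exact dvd_add (h1 i) (h2 i)
  zero_mem' := by intro i; simp [gapp]
  smul_mem' := by
    intro c θ h i
    have : gapp (A i) (c • θ) = c * gapp (A i) θ := by
      simp only [gapp, Finset.mul_sum, Pi.smul_apply, smul_eq_mul]
      exact Finset.sum_congr rfl fun j _ => by ring
    rw [this]; exact (h i).mul_left _

theorem mem_GD (A : Fin n → σ → K) (θ : σ → MvPolynomial σ K) :
    θ ∈ GD A ↔ ∀ i, glin (A i) ∣ gapp (A i) θ := Iff.rfl

variable [DecidableEq σ]

theorem glin_dvd_det {a : σ → K} (ha : a ≠ 0) (M : Matrix σ σ (MvPolynomial σ K))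
    (h : ∀ r, glin a ∣ gapp a (M r)) : glin a ∣ M.det := by
  obtain ⟨k, hk⟩ := Function.ne_iff.1 ha
  have h1 : M.adjugate *ᵥ (M *ᵥ fun j => C (a j)) =
      M.det • fun j => (C (a j) : MvPolynomial σ K) := by
    rw [Matrix.mulVec_mulVec, Matrix.adjugate_mul, Matrix.smul_mulVec, Matrix.one_mulVec]
  have h2 : glin a ∣ M.det * C (a k) := by
    have h3 := congrFun h1 k
    simp only [Pi.smul_apply, smul_eq_mul] at h3
    rw [← h3, Matrix.mulVec, dotProduct]
    refine Finset.dvd_sum fun r _ => Dvd.dvd.mul_left ?_ _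
    have := h r
    rw [gapp] at this
    simpa only [Matrix.mulVec, dotProduct, mul_comm] using this
  have hu : IsUnit (C (a k) : MvPolynomial σ K) := (IsUnit.mk0 _ hk).map C
  exact (hu.dvd_mul_right).1 h2

omit [DecidableEq σ] in
theorem Q_hom' (A : Fin n → σ → K) : (∏ i, glin (A i)).IsHomogeneous n := by
  have := IsHomogeneous.prod Finset.univ (fun i => glin (A i)) (fun _ => 1)
    (fun i _ => glin_hom (A i))
  simpa using this

/-- Saito's criterion -/
theorem free_of_saito' (A : Fin n → σ → K) (h0 : ∀ i, A i ≠ 0)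
    (h : ∀ i j, i ≠ j → ∀ c : K, A i ≠ c • A j) (M : Matrix σ σ (MvPolynomial σ K))
    (hM : ∀ r, M r ∈ GD A) (hdet : M.det ≠ 0) (hhom : M.det.IsHomogeneous n) :
    Module.Free (MvPolynomial σ K) (GD A) := by
  have Qd : ∀ N : Matrix σ σ (MvPolynomial σ K), (∀ r, N r ∈ GD A) → ∏ i, glin (A i) ∣ N.det :=
    fun N hN => prod_glin_dvd A h0 h fun i => glin_dvd_det (h0 i) N fun r => hN r i
  obtain ⟨g, hg⟩ := Qd M hM
  obtain ⟨c, hc, rfl⟩ := eq_C_of_hom' hhom (Q_hom' A) hdet hg
  have hQ : (∏ i, glin (A i)) ≠ 0 := Finset.prod_ne_zero_iff.2 fun i _ => glin_ne_zero (h0 i)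
  let v : σ → GD A := fun r => ⟨M r, hM r⟩
  have hv : LinearIndependent (MvPolynomial σ K) v :=
    LinearIndependent.of_comp (GD A).subtype (Matrix.linearIndependent_rows_of_det_ne_zero hdet)
  have hsp : ⊤ ≤ Submodule.span (MvPolynomial σ K) (Set.range v) := by
    rintro ⟨θ, hθ⟩ -
    have h1 : ∀ r, ∃ w, Matrix.cramer Mᵀ θ r = (∏ i, glin (A i)) * w := by
      intro r
      rw [Matrix.cramer_transpose_apply]
      apply Qd
      intro s
      by_cases hs : s = r
      · rw [hs, Matrix.updateRow_self]; exact hθ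
      · rw [Matrix.updateRow_ne hs]; exact hM s
    choose w hw using h1
    have h2 := Matrix.mulVec_cramer Mᵀ θ
    rw [Matrix.det_transpose, hg] at h2
    rw [Submodule.mem_span_range_iff_exists_fun]
    refine ⟨fun r => C c⁻¹ * w r, Subtype.ext (funext fun k => ?_)⟩
    have h3 := congrFun h2 k
    simp only [Matrix.mulVec, dotProduct, Matrix.transpose_apply, hw, Pi.smul_apply,
      smul_eq_mul] at h3
    simp only [v, Submodule.coe_sum, Submodule.coe_smul, Finset.sum_apply,
      Pi.smul_apply, smul_eq_mul]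
    have h4 : (C c⁻¹ * C c : MvPolynomial σ K) = 1 := by rw [← C_mul, inv_mul_cancel₀ hc, C_1]
    apply mul_left_cancel₀ hQ
    have h5 : (∏ i, glin (A i)) * ∑ r, C c⁻¹ * w r * M r k =
        C c⁻¹ * ∑ r, M r k * ((∏ i, glin (A i)) * w r) := by
      rw [Finset.mul_sum, Finset.mul_sum]
      exact Finset.sum_congr rfl fun r _ => by ring
    rw [h5, h3]
    linear_combination ((∏ i, glin (A i)) * θ k) * h4
  exact Module.Free.of_basis (Module.Basis.mk hv hsp)

theorem Q_single_mem' (A : Fin n → σ → K) (r : σ) :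
    ((∏ i, glin (A i)) • (1 : Matrix σ σ (MvPolynomial σ K))) r ∈ GD A := by
  intro i
  rw [gapp]
  refine Finset.dvd_sum fun j _ => Dvd.dvd.mul_left ?_ _
  simp only [Matrix.smul_apply, smul_eq_mul]
  exact (Finset.dvd_prod_of_mem _ (Finset.mem_univ i)).mul_right _

theorem exists_basis' (A : Fin n → σ → K) (h0 : ∀ i, A i ≠ 0)
    [Module.Free (MvPolynomial σ K) (GD A)] :
    Nonempty (Module.Basis σ (MvPolynomial σ K) (GD A)) := by
  have hQ : (∏ i, glin (A i)) ≠ 0 := Finset.prod_ne_zero_iff.2 fun i _ => glin_ne_zero (h0 i)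
  have h1 : Module.finrank (MvPolynomial σ K) (GD A) ≤ Fintype.card σ := by
    simpa using Submodule.finrank_le (GD A)
  have h2 : Fintype.card σ ≤ Module.finrank (MvPolynomial σ K) (GD A) := by
    let v : σ → GD A := fun r => ⟨_, Q_single_mem' A r⟩
    have hv : LinearIndependent (MvPolynomial σ K) v :=
      LinearIndependent.of_comp (GD A).subtype (Matrix.linearIndependent_rows_of_det_ne_zero
        (A := (∏ i, glin (A i)) • (1 : Matrix σ σ (MvPolynomial σ K)))
        (by rw [Matrix.det_smul, Matrix.det_one, mul_one]; exact pow_ne_zero _ hQ))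
    simpa using hv.fintype_card_le_finrank
  exact ⟨(Module.finBasisOfFinrankEq _ _ (le_antisymm h1 h2)).reindex
    (Fintype.equivFin σ).symm⟩

/-- in a free module of derivations a Frobenius derivation is not a minimal generator -/
theorem frob_decomp (B : Fin n → σ → K) (h0 : ∀ i, B i ≠ 0) (q : ℕ)
    (hη : (fun j => (X j : MvPolynomial σ K) ^ (q + 2)) ∈ GD B)
    (P : σ → K) (hP : ∀ j, P j ^ (q + 2) = P j) (hP' : ∀ i, B i ⬝ᵥ P ≠ 0)
    (hfree : Module.Free (MvPolynomial σ K) (GD B)) :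
    ∃ (v : σ → MvPolynomial σ K) (θ : σ → σ → MvPolynomial σ K), (∀ r, θ r ∈ GD B) ∧
      (∀ r, eval 0 (v r) = 0) ∧ ∀ j, (X j : MvPolynomial σ K) ^ (q + 2) = ∑ r, v r * θ r j := by
  obtain ⟨b⟩ := exists_basis' B h0
  let Bm : Matrix σ σ (MvPolynomial σ K) := fun r => (b r : σ → MvPolynomial σ K)
  have hrep : ∀ θ : GD B, (θ : σ → MvPolynomial σ K) = (fun r => b.repr θ r) ᵥ* Bm := by
    intro θ
    funext k
    have := congrArg (fun z : GD B => (z : σ → MvPolynomial σ K) k) (b.sum_repr θ)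
    simp only [Submodule.coe_sum, Submodule.coe_smul, Finset.sum_apply,
      Pi.smul_apply, smul_eq_mul] at this
    simp only [Matrix.vecMul, dotProduct, Bm]
    exact this.symm
  let φ : MvPolynomial σ K →ₐ[K] Polynomial K :=
    aeval (fun j => Polynomial.C (P j) * Polynomial.X)
  have hφ : ∀ (s : K) (g : MvPolynomial σ K), Polynomial.eval s (φ g) = eval (s • P) g := by
    intro s g
    induction g using MvPolynomial.induction_on with
    | C r => simp [φ]
    | add p q hp hq => simp only [map_add, Polynomial.eval_add, hp, hq]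
    | mul_X p i hp =>
      rw [map_mul, Polynomial.eval_mul, hp, map_mul]
      congr 1
      simp only [φ, aeval_X, Polynomial.eval_mul, Polynomial.eval_C, Polynomial.eval_X, eval_X,
        Pi.smul_apply, smul_eq_mul]
      ring
  have hdet : (Bm.map φ).det ≠ 0 := by
    let Cm : Matrix σ σ (MvPolynomial σ K) := fun r s => b.repr ⟨_, Q_single_mem' B r⟩ s
    have h1 : (∏ i, glin (B i)) • (1 : Matrix σ σ (MvPolynomial σ K)) = Cm * Bm := by
      funext r
      exact hrep ⟨_, Q_single_mem' B r⟩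
    have h2 := congrArg Matrix.det h1
    rw [Matrix.det_smul, Matrix.det_one, mul_one, Matrix.det_mul] at h2
    have h3 : (Bm.map φ).det = φ Bm.det := (AlgHom.map_det φ Bm).symm
    rw [h3]
    intro h4
    have h5 := congrArg (fun g => Polynomial.eval 1 (φ g)) h2
    simp only [map_mul, h4, mul_zero, Polynomial.eval_zero, hφ, one_smul, map_pow, map_prod,
      Polynomial.eval_pow, Polynomial.eval_prod, eval_glin] at h5
    exact Finset.prod_ne_zero_iff.2 (fun i _ => hP' i) (eq_zero_of_pow_eq_zero h5)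
  have hX : (X : σ → MvPolynomial σ K) ∈ GD B := fun _ => dvd_rfl
  let u : σ → MvPolynomial σ K := fun r => b.repr ⟨_, hX⟩ r
  let v : σ → MvPolynomial σ K := fun r => b.repr ⟨_, hη⟩ r
  have hu : (X : σ → MvPolynomial σ K) = u ᵥ* Bm := hrep ⟨_, hX⟩
  have hv : (fun j => (X j : MvPolynomial σ K) ^ (q + 2)) = v ᵥ* Bm := hrep ⟨_, hη⟩
  refine ⟨v, Bm, fun r => (b r).2, ?_, fun j => congrFun hv j⟩
  have h1 : (fun r => Polynomial.X ^ (q + 1) * φ (u r) - φ (v r)) ᵥ* (Bm.map φ) = 0 := by
    funext k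
    have h2 := congrArg φ (congrFun hu k)
    have h3 := congrArg φ (congrFun hv k)
    simp only [Matrix.vecMul, dotProduct, map_sum, map_mul, map_pow] at h2 h3
    simp only [Matrix.vecMul, dotProduct, Matrix.map_apply, Pi.zero_apply, sub_mul,
      Finset.sum_sub_distrib, mul_assoc]
    have h4 : φ (X k) ^ (q + 2) = Polynomial.X ^ (q + 1) * φ (X k) := by
      simp only [φ, aeval_X, mul_pow, ← Polynomial.C_pow, hP]; ring
    rw [← Finset.mul_sum, ← h2, ← h3, h4, sub_self]
  have h2 := Matrix.eq_zero_of_vecMul_eq_zero hdet h1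
  intro r
  have h3 := congrArg (Polynomial.eval 0) (congrFun h2 r)
  simp only [Polynomial.eval_sub, Polynomial.eval_mul, Polynomial.eval_pow, Polynomial.eval_X,
    hφ, zero_smul, Pi.zero_apply, Polynomial.eval_zero] at h3
  simpa using h3

end Pool.Agent.MP_feb289_co.Gen

end MrgPart0

-- ======== part 1: formerly Pool.Agent.MP_feb289_co.Extend
section MrgPart1

set_option autoImplicit false

namespace Pool.Agent.MP_feb289_co.Gen

open MvPolynomial Matrix

variable {K : Type} [Field K] {n : ℕ}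

theorem gapp3 (a : Fin 3 → K) (θ : Fin 3 → S3 K) :
    gapp a θ = C (a 0) * θ 0 + C (a 1) * θ 1 + C (a 2) * θ 2 := by
  simp [gapp, Fin.sum_univ_three]

/-- the Frobenius derivation is a minimal generator -/
theorem not_decomp (B : Fin n → Fin 3 → K) (q : ℕ)
    (i0 : Fin n) (hi0 : B i0 = ![0, 0, 1]) (e : Fin (q + 3) → Fin n)
    (he0 : ∀ k, ¬ (B (e k) 0 = 0 ∧ B (e k) 1 = 0))
    (he : ∀ k l, k ≠ l → B (e k) 0 * B (e l) 1 - B (e k) 1 * B (e l) 0 ≠ 0)
    {ι : Type} [Fintype ι] (v : ι → S3 K) (θ : ι → Fin 3 → S3 K) (hθ : ∀ r, θ r ∈ GD B)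
    (hv0 : ∀ r, eval 0 (v r) = 0)
    (hv : ∀ j, (X j : S3 K) ^ (q + 2) = ∑ r, v r * θ r j) : False := by
  let ρ : S3 K →ₐ[K] S3 K := aeval ![X 0, X 1, 0]
  have x0 : ρ (X 0) = X 0 := by simp [ρ]
  have x1 : ρ (X 1) = X 1 := by simp [ρ]
  have x2 : ρ (X 2) = 0 := by simp [ρ]
  have xC : ∀ c : K, ρ (C c) = C c := fun c => by simp [ρ]
  have hρ : ∀ g : S3 K, eval 0 (ρ g) = eval 0 g := by
    intro g
    induction g using MvPolynomial.induction_on with
    | C r => simp [ρ]
    | add p q hp hq => simp only [map_add, hp, hq]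
    | mul_X p i hp =>
      rw [map_mul, map_mul, hp, map_mul]
      congr 1
      fin_cases i <;> simp [ρ]
  let a : Fin (q + 3) → Fin 3 → K := fun k => ![B (e k) 0, B (e k) 1, 0]
  have ha0 : ∀ k, a k ≠ 0 := fun k h => he0 k ⟨congrFun h 0, congrFun h 1⟩
  have ha1 : ∀ k l, k ≠ l → ∀ c : K, a k ≠ c • a l := by
    intro k l hkl c h
    apply he k l hkl
    have e0 : B (e k) 0 = c * B (e l) 0 := congrFun h 0
    have e1 : B (e k) 1 = c * B (e l) 1 := congrFun h 1
    rw [e0, e1]; ring
  have hw : ∀ r, ∃ g, X 0 * ρ (θ r 1) - X 1 * ρ (θ r 0) = (∏ k, glin (a k)) * g := by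
    intro r
    apply prod_glin_dvd a ha0 ha1
    intro k
    have h1 : ρ (θ r 2) = 0 := by
      have := map_dvd ρ (hθ r i0)
      rw [glin, gapp3, gapp3, hi0] at this
      simpa [x2] using this
    have hl : glin (a k) = C (B (e k) 0) * X 0 + C (B (e k) 1) * X 1 := by
      rw [glin, gapp3]; simp [a]
    have h2 : glin (a k) ∣ C (B (e k) 0) * ρ (θ r 0) + C (B (e k) 1) * ρ (θ r 1) := by
      have := map_dvd ρ (hθ r (e k))
      rw [glin, gapp3, gapp3] at this
      simp only [map_add, map_mul, x0, x1, x2, xC, h1, mul_zero, add_zero] at this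
      rwa [hl]
    by_cases h3 : B (e k) 0 = 0
    · have h4 : B (e k) 1 ≠ 0 := fun h4 => he0 k ⟨h3, h4⟩
      have hu : IsUnit (C (B (e k) 1) : S3 K) := (IsUnit.mk0 _ h4).map C
      rw [← hu.dvd_mul_left]
      have : C (B (e k) 1) * (X 0 * ρ (θ r 1) - X 1 * ρ (θ r 0)) =
          X 0 * (C (B (e k) 0) * ρ (θ r 0) + C (B (e k) 1) * ρ (θ r 1)) -
            glin (a k) * ρ (θ r 0) := by rw [hl]; ring
      rw [this]
      exact dvd_sub (h2.mul_left _) (dvd_mul_right _ _)
    · have hu : IsUnit (C (B (e k) 0) : S3 K) := (IsUnit.mk0 _ h3).map C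
      rw [← hu.dvd_mul_left]
      have : C (B (e k) 0) * (X 0 * ρ (θ r 1) - X 1 * ρ (θ r 0)) =
          glin (a k) * ρ (θ r 1) -
            X 1 * (C (B (e k) 0) * ρ (θ r 0) + C (B (e k) 1) * ρ (θ r 1)) := by rw [hl]; ring
      rw [this]
      exact dvd_sub (dvd_mul_right _ _) (h2.mul_left _)
  choose g hg using hw
  have key : (X 0 * X 1 ^ (q + 2) - X 1 * X 0 ^ (q + 2) : S3 K) =
      (∏ k, glin (a k)) * ∑ r, ρ (v r) * g r := by
    have h1 := congrArg ρ (hv 0)
    have h2 := congrArg ρ (hv 1)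
    simp only [map_sum, map_mul, map_pow, x0, x1] at h1 h2
    rw [h1, h2, Finset.mul_sum, Finset.mul_sum, Finset.mul_sum, ← Finset.sum_sub_distrib]
    refine Finset.sum_congr rfl fun r _ => ?_
    linear_combination ρ (v r) * hg r
  have hne : (X 0 * X 1 ^ (q + 2) - X 1 * X 0 ^ (q + 2) : S3 K) ≠ 0 := by
    intro h
    have h1 : (Polynomial.X ^ (q + 2) - Polynomial.X : Polynomial K) = 0 := by
      have := congrArg (aeval (![1, Polynomial.X, 0] : Fin 3 → Polynomial K)) h
      simpa using this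
    have h2 := congrArg (fun p => Polynomial.coeff p 1) h1
    simp [Polynomial.coeff_X_pow] at h2
  have hhom : (X 0 * X 1 ^ (q + 2) - X 1 * X 0 ^ (q + 2) : S3 K).IsHomogeneous (q + 3) := by
    have h1 := (isHomogeneous_X K (0 : Fin 3)).mul (isHomogeneous_X_pow (R := K) (1 : Fin 3) (q + 2))
    have h2 := (isHomogeneous_X K (1 : Fin 3)).mul (isHomogeneous_X_pow (R := K) (0 : Fin 3) (q + 2))
    rw [show 1 + (q + 2) = q + 3 by omega] at h1 h2
    exact h1.sub h2
  obtain ⟨c, hc, hc'⟩ := eq_C_of_hom' hhom (Q_hom' a) hne key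
  have h1 := congrArg (eval 0) hc'
  simp only [map_sum, map_mul, hρ, hv0, zero_mul, Finset.sum_const_zero, eval_C] at h1
  exact hc h1.symm

/-- extension of a vector by zeros -/
def ext0 (m : ℕ) {R : Type} [Zero R] (a : Fin 3 → R) : Fin (3 + m) → R := Fin.append a 0

theorem ext0_cast (m : ℕ) {R : Type} [Zero R] (a : Fin 3 → R) (j : Fin 3) :
    ext0 m a (Fin.castAdd m j) = a j := Fin.append_left _ _ _

theorem ext0_nat (m : ℕ) {R : Type} [Zero R] (a : Fin 3 → R) (j : Fin m) :
    ext0 m a (Fin.natAdd 3 j) = 0 := Fin.append_right _ _ _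

variable (m : ℕ)

theorem ext0_dot (a : Fin 3 → K) (v : Fin (3 + m) → K) :
    ext0 m a ⬝ᵥ v = a ⬝ᵥ fun j => v (Fin.castAdd m j) := by
  simp only [dotProduct, Fin.sum_univ_add, ext0_cast, ext0_nat, zero_mul, Finset.sum_const_zero,
    add_zero]

theorem gapp_ext0 (a : Fin 3 → K) (θ : Fin (3 + m) → MvPolynomial (Fin (3 + m)) K) :
    gapp (ext0 m a) θ = ∑ j : Fin 3, C (a j) * θ (Fin.castAdd m j) := by
  simp only [gapp, Fin.sum_univ_add, ext0_cast, ext0_nat, C_0, zero_mul, Finset.sum_const_zero,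
    add_zero]

theorem rename_gapp (a : Fin 3 → K) (θ : Fin 3 → S3 K) :
    rename (Fin.castAdd m) (gapp a θ) =
      ∑ j : Fin 3, C (a j) * rename (Fin.castAdd m) (θ j) := by
  simp [gapp]

theorem glin_ext0 (a : Fin 3 → K) : glin (ext0 m a) = rename (Fin.castAdd m) (glin a) := by
  rw [glin, glin, gapp_ext0, rename_gapp]
  simp

theorem ext0_ne {a : Fin 3 → K} (h : a ≠ 0) : ext0 m a ≠ 0 := by
  intro h0
  apply h
  funext j
  rw [← ext0_cast m a j, h0]; rfl

theorem ext0_ne_smul {a b : Fin 3 → K} (h : ∀ c : K, a ≠ c • b) (c : K) :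
    ext0 m a ≠ c • ext0 m b := by
  intro h0
  apply h c
  funext j
  have := congrFun h0 (Fin.castAdd m j)
  simpa only [Pi.smul_apply, ext0_cast] using this

theorem free_ext (A : Fin n → Fin 3 → K) (h0 : ∀ i, A i ≠ 0)
    (h : ∀ i j, i ≠ j → ∀ c : K, A i ≠ c • A j) (M : Matrix (Fin 3) (Fin 3) (S3 K))
    (hM : ∀ r, M r ∈ GD A) (hdet : M.det ≠ 0) (hhom : M.det.IsHomogeneous n) :
    Module.Free (MvPolynomial (Fin (3 + m)) K) (GD fun i => ext0 m (A i)) := by
  let ψ : S3 K →ₐ[K] MvPolynomial (Fin (3 + m)) K := rename (Fin.castAdd m)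
  let N : Matrix (Fin (3 + m)) (Fin (3 + m)) (MvPolynomial (Fin (3 + m)) K) :=
    Matrix.reindex finSumFinEquiv finSumFinEquiv (Matrix.fromBlocks (M.map ψ) 0 0 1)
  have hN : N.det = ψ M.det := by
    rw [Matrix.det_reindex_self, Matrix.det_fromBlocks_zero₂₁, Matrix.det_one, mul_one]
    exact (AlgHom.map_det ψ M).symm
  refine free_of_saito' _ (fun i => ext0_ne m (h0 i)) (fun i j hij => ext0_ne_smul m (h i j hij))
    N (fun r i => ?_) ?_ ?_
  · rw [gapp_ext0, glin_ext0]
    induction r using Fin.addCases with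
    | left r =>
      have h1 := map_dvd ψ (hM r i)
      rw [rename_gapp] at h1
      simpa [N] using h1
    | right r => simp [N]
  · rw [hN]
    exact fun h1 => hdet (rename_injective _ (Fin.castAdd_injective 3 m) (h1.trans (map_zero _).symm))
  · rw [hN]
    exact hhom.rename_isHomogeneous

theorem not_free_ext (B : Fin n → Fin 3 → K) (h0 : ∀ i, B i ≠ 0) (q : ℕ)
    (hη : (fun j => (X j : S3 K) ^ (q + 2)) ∈ GD B)
    (P : Fin 3 → K) (hP : ∀ j, P j ^ (q + 2) = P j) (hP' : ∀ i, B i ⬝ᵥ P ≠ 0)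
    (i0 : Fin n) (hi0 : B i0 = ![0, 0, 1]) (e : Fin (q + 3) → Fin n)
    (he0 : ∀ k, ¬ (B (e k) 0 = 0 ∧ B (e k) 1 = 0))
    (he : ∀ k l, k ≠ l → B (e k) 0 * B (e l) 1 - B (e k) 1 * B (e l) 0 ≠ 0) :
    ¬ Module.Free (MvPolynomial (Fin (3 + m)) K) (GD fun i => ext0 m (B i)) := by
  intro hfree
  obtain ⟨v, θ, hθ, hv0, hv⟩ := frob_decomp (fun i => ext0 m (B i)) (fun i => ext0_ne m (h0 i)) q
    (fun i => by
      have h1 := map_dvd (rename (R := K) (Fin.castAdd m)) (hη i)
      rw [rename_gapp] at h1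
      rw [gapp_ext0, glin_ext0]
      simpa using h1)
    (ext0 m P) (fun j => by
      induction j using Fin.addCases with
      | left j => rw [ext0_cast, hP]
      | right j => rw [ext0_nat]; simp)
    (fun i => by rw [ext0_dot]; simpa only [ext0_cast] using hP' i) hfree
  let π : MvPolynomial (Fin (3 + m)) K →ₐ[K] S3 K := aeval (ext0 m X)
  have hπ : ∀ g, eval 0 (π g) = eval 0 g := by
    intro g
    induction g using MvPolynomial.induction_on with
    | C r => simp [π]
    | add p q hp hq => simp only [map_add, hp, hq]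
    | mul_X p i hp =>
      rw [map_mul, map_mul, hp, map_mul]
      congr 1
      induction i using Fin.addCases with
      | left j => simp [π, ext0_cast]
      | right j => simp [π, ext0_nat]
  have hX : ∀ j, π (X (Fin.castAdd m j)) = X j := fun j => by simp [π, ext0_cast]
  have hC : ∀ c : K, π (C c) = C c := fun c => by simp [π]
  refine not_decomp B q i0 hi0 e he0 he (fun r => π (v r)) (fun r j => π (θ r (Fin.castAdd m j)))
    (fun r i => ?_) (fun r => by rw [hπ, hv0]) (fun j => ?_)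
  · have h1 := map_dvd π (hθ r i)
    rw [glin, gapp_ext0, gapp_ext0] at h1
    simp only [map_sum, map_mul, hX, hC] at h1
    exact h1
  · have h1 := congrArg π (hv (Fin.castAdd m j))
    simpa only [map_sum, map_mul, map_pow, hX] using h1

section model

variable [CharP K 11] (w : K)

omit [CharP K 11] in
theorem io_map {L : Type} [Field L] (φ : K →+* L) (a : F) : io (φ w) a = φ (io w a) := by
  simp [io]

omit [CharP K 11] in
theorem hom2_map {L : Type} [Field L] (φ : K →+* L) : ∀ (d : ℕ) (T : List F),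
    hom2 (φ w) d T = map φ (hom2 w d T)
  | _, [] => by rw [hom2, hom2, map_zero]
  | 0, c :: _ => by rw [hom2, hom2, map_C, io_map]
  | d + 1, c :: cs => by
    rw [hom2, hom2, hom2_map φ d cs, io_map]; simp

omit [CharP K 11] in
theorem hom3_map {L : Type} [Field L] (φ : K →+* L) : ∀ (d : ℕ) (T : List (List F)),
    hom3 (φ w) d T = map φ (hom3 w d T)
  | _, [] => by rw [hom3, hom3, map_zero]
  | 0, r :: _ => by rw [hom3, hom3, hom2_map]
  | d + 1, r :: rs => by
    rw [hom3, hom3, hom3_map φ d rs, hom2_map]; simp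

variable (hw : w ^ 2 = -1)
include hw

theorem der_mem' (f g : List (List F))
    (h : ((List.range 27).all fun i => i == 0 || chkLine (rowA i) (rowP i) f g) = true) :
    ![hom3 w 13 f, hom3 w 13 g, 0] ∈ GD (matA w) := by
  intro i
  let φ : K →+* AlgebraicClosure K := algebraMap K _
  have hw' : (φ w) ^ 2 = -1 := by rw [← map_pow, hw]; simp
  have h1 := (mem_Dmod _ _).1 (der_mem (φ w) hw' f g h) i
  apply dvd_of_map φ (matA_ne w hw i)
  have h2 : (fun j => φ (matA w i j)) = matA (φ w) i := by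
    funext j
    fin_cases j <;> simp [matA, iv, io_map]
  rw [app_eq, ← h2] at h1
  rw [gapp3]
  simp only [Matrix.cons_val_zero, Matrix.cons_val_one, Matrix.cons_val, mul_zero, add_zero,
    hom3_map] at h1
  simp only [Matrix.cons_val_zero, Matrix.cons_val_one, Matrix.cons_val, mul_zero, add_zero,
    map_add, map_mul, map_C]
  exact h1

theorem freeA' : Module.Free (MvPolynomial (Fin (3 + m)) K) (GD fun i => ext0 m (matA w i)) := by
  let M : Matrix (Fin 3) (Fin 3) (S3 K) :=
    ![X, ![hom3 w 13 f1, hom3 w 13 g1, 0], ![hom3 w 13 f2, hom3 w 13 g2, 0]]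
  have hM : M.det = X 2 * (hom3 w 13 f1 * hom3 w 13 g2 - hom3 w 13 g1 * hom3 w 13 f2) := by
    rw [Matrix.det_fin_three]
    simp only [M, Matrix.cons_val_zero, Matrix.cons_val_one, Matrix.cons_val]
    ring
  refine free_ext m _ (matA_ne w hw) (fun i j h => ne_smul_of_cr (cr_ne w hw i j h).1) M
    (fun r => ?_) ?_ ?_
  · fin_cases r
    · exact fun _ => dvd_rfl
    · exact der_mem' w hw f1 g1 chk_lines1
    · exact der_mem' w hw f2 g2 chk_lines2
  · intro h
    have h1 := congrArg (eval ![io w (2, 0), io w (3, 0), 1]) (hM.symm.trans h)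
    simp only [map_mul, map_sub, eval_hom3 w hw, eval_X, Matrix.cons_val, one_mul, map_zero] at h1
    rw [← io_mul w hw, ← io_mul w hw, ← io_sub, io_eq_zero w hw, chk_det] at h1
    exact Bool.false_ne_true h1
  · rw [hM]
    exact (isHomogeneous_X K (2 : Fin 3)).mul (((hom3_hom w 13 f1).mul (hom3_hom w 13 g2)).sub
      ((hom3_hom w 13 g1).mul (hom3_hom w 13 f2)))

theorem not_freeB' :
    ¬ Module.Free (MvPolynomial (Fin (3 + m)) K) (GD fun i => ext0 m (matB w i)) := by
  have : Fact (Nat.Prime 11) := ⟨by norm_num⟩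
  have hE : ∀ k : Fin 12, rowE k < 27 ∧ (isZ (rowB (rowE k)).1 && isZ (rowB (rowE k)).2.1) = false ∧
      ∀ l : Fin 12, k ≠ l → isZ (fsub (fmul (rowB (rowE k)).1 (rowB (rowE l)).2.1)
        (fmul (rowB (rowE k)).2.1 (rowB (rowE l)).1)) = false := by
    intro k
    have h1 := List.all_eq_true.1 chk_dirs k (List.mem_range.2 k.2)
    simp only [Bool.and_eq_true, decide_eq_true_eq, Bool.not_eq_true'] at h1
    refine ⟨h1.1.1, h1.1.2, fun l hl => ?_⟩
    have h2 := List.all_eq_true.1 h1.2 l (List.mem_range.2 l.2)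
    have h3 : (k : ℕ) ≠ l := fun e => hl (Fin.ext e)
    simpa [h3] using h2
  refine not_free_ext m (matB w) (matB_ne w hw) 9 ?_ (iv w ((1, 0), (2, 0), (5, 0))) ?_ ?_ 0 ?_
    (fun k => ⟨rowE k, (hE k).1⟩) ?_ ?_
  · intro i
    obtain ⟨-, -, h1, h2, h3, -⟩ := rows_spec i
    have h4 : gapp (matB w i) (fun j => (X j : S3 K) ^ (9 + 2)) = glin (matB w i) ^ 11 := by
      rw [glin, gapp3, gapp3, add_pow_char, add_pow_char, mul_pow, mul_pow, mul_pow, ← C_pow,
        ← C_pow, ← C_pow]
      simp [matB, iv, io, h1, h2, h3, natCast_pow]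
    rw [h4]
    exact dvd_pow_self _ (by norm_num)
  · intro j
    fin_cases j
    · simp [iv, io]
    · simpa [iv, io] using natCast_pow (K := K) 2
    · simpa [iv, io] using natCast_pow (K := K) 5
  · intro i h
    rw [matB, ← io_dot w hw, io_eq_zero w hw, (rows_spec i).2.2.2.2.2] at h
    exact Bool.false_ne_true h
  · simp [matB, rowB, tabB, iv, io]
  · rintro k ⟨e0, e1⟩
    have e0' := (io_eq_zero w hw _).1 e0
    have e1' := (io_eq_zero w hw _).1 e1
    have := (hE k).2.1
    simp [e0', e1'] at this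
  · intro k l hkl h
    have h1 := (hE k).2.2 l hkl
    have h2 : io w (fsub (fmul (rowB (rowE k)).1 (rowB (rowE l)).2.1)
        (fmul (rowB (rowE k)).2.1 (rowB (rowE l)).1)) = 0 := by
      rw [io_sub, io_mul w hw, io_mul w hw]; exact h
    rw [io_eq_zero w hw, h1] at h2
    exact Bool.false_ne_true h2

theorem span_transfer (s : Finset (Fin 27)) (j : Fin 27) :
    (∀ v : Fin (3 + m) → K, (∀ i ∈ s, ext0 m (matA w i) ⬝ᵥ v = 0) → ext0 m (matA w j) ⬝ᵥ v = 0) ↔
    (∀ v : Fin (3 + m) → K, (∀ i ∈ s, ext0 m (matB w i) ⬝ᵥ v = 0) → ext0 m (matB w j) ⬝ᵥ v = 0) := by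
  have key : ∀ A : Matrix (Fin 27) (Fin 3) K,
      (∀ v : Fin (3 + m) → K, (∀ i ∈ s, ext0 m (A i) ⬝ᵥ v = 0) → ext0 m (A j) ⬝ᵥ v = 0) ↔
      (∀ v : Fin 3 → K, (∀ i ∈ s, A i ⬝ᵥ v = 0) → A j ⬝ᵥ v = 0) := by
    intro A
    simp only [ext0_dot]
    constructor
    · intro h v hv
      simpa only [ext0_cast] using h (ext0 m v) (by simpa only [ext0_cast] using hv)
    · intro h v hv
      exact h _ hv
  rw [key, key, span_iff _ (matA_ne w hw) (fun i j h => (cr_ne w hw i j h).1),
    span_iff _ (matB_ne w hw) (fun i j h => (cr_ne w hw i j h).2)]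
  simp only [triple_iff w hw]

end model

end Pool.Agent.MP_feb289_co.Gen

end MrgPart1

-- marker of a merged file
example : 731051 + 74486 = 731051 + 74486 := rfl
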