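import Mathlib.Algebra.AffineMonoid.UniqueSums
import Mathlib.Topology.Sheaves.Presheaf
import Mathlib.RingTheory.Flat.TorsionFree
import Mathlib.Algebra.Order.Ring.Star
import Mathlib.RingTheory.PicardGroup
import Mathlib.Algebra.MvPolynomial.Funext
import Mathlib.Combinatorics.SimpleGraph.Basic
import Mathlib.Tactic.NormNum.Prime
import Mathlib.RingTheory.SimpleRing.Principal
import Mathlib.RingTheory.TotallySplit
import Mathlib.RingTheory.Etale.Weakly
import Mathlib.RingTheory.Henselian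
import Mathlib.RingTheory.MvPolynomial.IrreducibleQuadratic
import Mathlib.RingTheory.RegularLocalRing.Defs
import Mathlib.Tactic.Polynomial.Basic
import Pool.Agent.MP_feb289_co.Compute

-- ======== part 0: formerly Pool.Agent.MP_feb289_co.Linear
section MrgPart0

set_option autoImplicit false

namespace Pool.Agent.MP_feb289_co

open MvPolynomial Matrix

variable {K : Type} [Field K]

/-- the polynomial ring in three variables -/
abbrev S3 (K : Type) [Field K] : Type := MvPolynomial (Fin 3) K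

/-- the derivation `θ` applied to the linear form with coefficients `a` -/
noncomputable def app (a : Fin 3 → K) (θ : Fin 3 → S3 K) : S3 K := (fun j => C (a j)) ⬝ᵥ θ

/-- the linear form with coefficients `a` -/
noncomputable def lin (a : Fin 3 → K) : S3 K := app a X

theorem app_eq (a : Fin 3 → K) (θ : Fin 3 → S3 K) :
    app a θ = C (a 0) * θ 0 + C (a 1) * θ 1 + C (a 2) * θ 2 := by
  simp [app, dotProduct, Fin.sum_univ_three]

theorem eval_app (a v : Fin 3 → K) (θ : Fin 3 → S3 K) :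
    eval v (app a θ) = a 0 * eval v (θ 0) + a 1 * eval v (θ 1) + a 2 * eval v (θ 2) := by
  simp [app_eq]

theorem dot3 (a v : Fin 3 → K) : a ⬝ᵥ v = a 0 * v 0 + a 1 * v 1 + a 2 * v 2 := by
  simp [dotProduct, Fin.sum_univ_three]

theorem eval_lin (a v : Fin 3 → K) : eval v (lin a) = a ⬝ᵥ v := by
  simp [lin, eval_app, dot3]

theorem lin_hom (a : Fin 3 → K) : (lin a).IsHomogeneous 1 := by
  rw [lin, app_eq]
  exact ((isHomogeneous_C_mul_X _ _).add (isHomogeneous_C_mul_X _ _)).add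
    (isHomogeneous_C_mul_X _ _)

theorem exists_dot_one {a : Fin 3 → K} (ha : a ≠ 0) : ∃ u : Fin 3 → K, a ⬝ᵥ u = 1 := by
  obtain ⟨k, hk⟩ := Function.ne_iff.1 ha
  refine ⟨Pi.single k (a k)⁻¹, ?_⟩
  rw [dotProduct_single]
  exact mul_inv_cancel₀ hk

theorem lin_ne_zero {a : Fin 3 → K} (ha : a ≠ 0) : lin a ≠ 0 := by
  obtain ⟨u, hu⟩ := exists_dot_one ha
  intro h
  have := eval_lin a u
  rw [h, hu, map_zero] at this
  exact zero_ne_one this

theorem smul_of_ker_le {a b : Fin 3 → K} (ha : a ≠ 0)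
    (h : ∀ v, a ⬝ᵥ v = 0 → b ⬝ᵥ v = 0) : ∃ c : K, b = c • a := by
  obtain ⟨u, hu⟩ := exists_dot_one ha
  refine ⟨b ⬝ᵥ u, funext fun k => ?_⟩
  have h1 := h (Pi.single k 1 - a k • u) (by
    rw [dotProduct_sub, dotProduct_smul, dotProduct_single, hu]; simp)
  rw [dotProduct_sub, dotProduct_smul, dotProduct_single] at h1
  simp only [mul_one, smul_eq_mul] at h1
  simp only [Pi.smul_apply, smul_eq_mul]
  linear_combination h1

theorem exists_sigma {a : Fin 3 → K} (ha : a ≠ 0) :
    ∃ σ : S3 K →ₐ[K] S3 K, (∀ f, lin a ∣ f ↔ σ f = 0) ∧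
      ∀ v : Fin 3 → K, ∃ v' : Fin 3 → K, a ⬝ᵥ v' = 0 ∧ ∀ f, eval v (σ f) = eval v' f := by
  obtain ⟨u, hu⟩ := exists_dot_one ha
  let σ : S3 K →ₐ[K] S3 K := aeval (fun i => X i - C (u i) * lin a)
  have h1 : σ (lin a) = 0 := by
    have hu' : (C (a 0) * C (u 0) + C (a 1) * C (u 1) + C (a 2) * C (u 2) : S3 K) = 1 := by
      rw [dot3] at hu
      rw [← C_mul, ← C_mul, ← C_mul, ← C_add, ← C_add, hu, C_1]
    have hl : lin a = C (a 0) * X 0 + C (a 1) * X 1 + C (a 2) * X 2 := app_eq _ _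
    conv_lhs => rw [hl]
    simp only [σ, map_add, map_mul, aeval_C, aeval_X, algebraMap_eq]
    linear_combination (-1 : S3 K) * hl - (lin a) * hu'
  have h2 : ∀ f, lin a ∣ f - σ f := by
    intro f
    induction f using MvPolynomial.induction_on with
    | C r => simp [σ]
    | add p q hp hq =>
      rw [map_add, add_sub_add_comm]; exact dvd_add hp hq
    | mul_X p i hp =>
      have : p * X i - σ (p * X i) = (p - σ p) * X i + lin a * (σ p * C (u i)) := by
        simp only [σ, map_mul, aeval_X]; ring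
      rw [this]
      exact dvd_add (hp.mul_right _) (dvd_mul_right _ _)
  refine ⟨σ, fun f => ⟨?_, fun h => ?_⟩, fun v => ⟨v - (a ⬝ᵥ v) • u, ?_, fun f => ?_⟩⟩
  · rintro ⟨g, rfl⟩
    rw [map_mul, h1, zero_mul]
  · simpa [h] using h2 f
  · rw [dotProduct_sub, dotProduct_smul, hu]; simp
  · induction f using MvPolynomial.induction_on with
    | C r => simp [σ]
    | add p q hp hq => simp only [map_add, hp, hq]
    | mul_X p i hp =>
      rw [map_mul, map_mul, hp, map_mul]
      simp [σ, eval_lin, mul_comm]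

theorem lin_prime {a : Fin 3 → K} (ha : a ≠ 0) : Prime (lin a) := by
  obtain ⟨σ, hσ, -⟩ := exists_sigma ha
  refine ⟨lin_ne_zero ha, fun h => ?_, fun f g h => ?_⟩
  · have := (hσ 1).1 h.dvd
    simp at this
  · rw [hσ, map_mul, mul_eq_zero] at h
    rwa [hσ, hσ]

theorem eval_eq_zero_of_lin_dvd {a v : Fin 3 → K} {f : S3 K} (h : lin a ∣ f) (hv : a ⬝ᵥ v = 0) :
    eval v f = 0 := by
  obtain ⟨g, rfl⟩ := h
  rw [map_mul, eval_lin, hv, zero_mul]

theorem lin_dvd_of_vanish [Infinite K] {a : Fin 3 → K} (ha : a ≠ 0) {f : S3 K}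
    (h : ∀ v, a ⬝ᵥ v = 0 → eval v f = 0) : lin a ∣ f := by
  obtain ⟨σ, hσ, hv⟩ := exists_sigma ha
  rw [hσ]
  apply MvPolynomial.funext
  intro v
  obtain ⟨v', h1, h2⟩ := hv v
  rw [h2, h v' h1, map_zero]

theorem prod_lin_dvd {ι : Type} [Fintype ι] (a : ι → Fin 3 → K) (h0 : ∀ i, a i ≠ 0)
    (h : ∀ i j, i ≠ j → ∀ c : K, a i ≠ c • a j) {f : S3 K} (hf : ∀ i, lin (a i) ∣ f) :
    ∏ i, lin (a i) ∣ f := by
  apply Fintype.prod_dvd_of_isRelPrime _ hf
  intro i j hij
  refine ((lin_prime (h0 i)).irreducible.isRelPrime_iff_not_dvd).2 fun hd => ?_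
  obtain ⟨c, hc⟩ := smul_of_ker_le (b := a j) (h0 i) (fun v hv => by
    rw [← eval_lin]; exact eval_eq_zero_of_lin_dvd hd hv)
  exact h j i hij.symm c hc

theorem eq_C_of_hom {f g h : S3 K} {d : ℕ} (hf : f.IsHomogeneous d) (hg : g.IsHomogeneous d)
    (hf0 : f ≠ 0) (e : f = g * h) : ∃ c : K, c ≠ 0 ∧ h = C c := by
  have hg0 : g ≠ 0 := by rintro rfl; simp [e] at hf0
  have hh0 : h ≠ 0 := by rintro rfl; simp [e] at hf0
  have h1 := totalDegree_mul_of_isDomain hg0 hh0
  rw [← e, hf.totalDegree hf0, hg.totalDegree hg0] at h1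
  have h2 : h.totalDegree = 0 := by omega
  rw [totalDegree_eq_zero_iff_eq_C] at h2
  refine ⟨coeff 0 h, fun h3 => hh0 ?_, h2⟩
  rw [h2, h3, C_0]

theorem eval_smul_hom {f : S3 K} {d : ℕ} (hf : f.IsHomogeneous d) (c : K) (v : Fin 3 → K) :
    eval (c • v) f = c ^ d * eval v f := by
  rw [eval_eq', eval_eq', Finset.mul_sum]
  refine Finset.sum_congr rfl fun s hs => ?_
  have h1 : ∑ i, s i = d := by
    have := hf (mem_support_iff.1 hs)
    rw [← this, Finsupp.weight_apply, Finsupp.sum_fintype _ _ (by simp)]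
    simp
  simp only [Pi.smul_apply, smul_eq_mul, mul_pow, Finset.prod_mul_distrib,
    Finset.prod_pow_eq_pow_sum, h1]
  ring

theorem lin_dvd_of_points [Infinite K] (a : Fin 3 → K) (hab : ¬ (a 0 = 0 ∧ a 1 = 0)) (p0 p1 : K)
    (hp : a 0 * p0 + a 1 * p1 + a 2 = 0) {f : S3 K} {d : ℕ} (hf : f.IsHomogeneous d)
    (t : Fin (d + 1) → K) (ht : Function.Injective t)
    (h : ∀ k, eval ![p0 + t k * a 1, p1 - t k * a 0, 1] f = 0) : lin a ∣ f := by
  have ha : a ≠ 0 := by rintro rfl; simp at hab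
  let φ : Fin 3 → Polynomial K := ![Polynomial.C p0 + Polynomial.X * Polynomial.C (a 1),
    Polynomial.C p1 - Polynomial.X * Polynomial.C (a 0), 1]
  have hev : ∀ (s : K) (g : S3 K), Polynomial.eval s (aeval φ g) =
      eval ![p0 + s * a 1, p1 - s * a 0, 1] g := by
    intro s g
    induction g using MvPolynomial.induction_on with
    | C r => simp
    | add p q hp hq => simp only [map_add, Polynomial.eval_add, hp, hq]
    | mul_X p i hp =>
      rw [map_mul, Polynomial.eval_mul, hp, map_mul]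
      congr 1
      fin_cases i <;> simp [φ] <;> ring
  have hdeg : (aeval φ f).natDegree ≤ d * 1 := by
    apply aeval_natDegree_le f hf.totalDegree_le
    intro i
    fin_cases i
    · simp only [φ]; show (Polynomial.C p0 + Polynomial.X * Polynomial.C (a 1)).natDegree ≤ 1
      compute_degree
    · simp only [φ]; show (Polynomial.C p1 - Polynomial.X * Polynomial.C (a 0)).natDegree ≤ 1
      compute_degree
    · simp [φ]
  have hz : aeval φ f = 0 :=
    Polynomial.eq_zero_of_natDegree_lt_card_of_eval_eq_zero _ ht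
      (fun k => by rw [hev]; exact h k) (by simp; omega)
  have hall : ∀ s : K, eval ![p0 + s * a 1, p1 - s * a 0, 1] f = 0 := by
    intro s; rw [← hev, hz, Polynomial.eval_zero]
  have h2 : lin a ∣ X 2 * f := by
    apply lin_dvd_of_vanish ha
    intro v hv
    rw [map_mul, eval_X]
    by_cases h2 : v 2 = 0
    · rw [h2, zero_mul]
    · rw [dot3] at hv
      obtain ⟨s, hs⟩ : ∃ s : K, v = v 2 • ![p0 + s * a 1, p1 - s * a 0, 1] := by
        by_cases h0 : a 0 = 0
        · have h1 : a 1 ≠ 0 := fun h1 => hab ⟨h0, h1⟩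
          refine ⟨(v 0 / v 2 - p0) / a 1, funext fun i => ?_⟩
          fin_cases i
          · simp; field_simp; ring
          · simp only [h0, zero_mul, zero_add] at hv hp
            simp [h0]
            apply mul_left_cancel₀ h1
            linear_combination hv - v 2 * hp
          · simp
        · refine ⟨(p1 - v 1 / v 2) / a 0, funext fun i => ?_⟩
          fin_cases i
          · simp; field_simp
            linear_combination hv - v 2 * hp
          · simp; field_simp; ring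
          · simp
      rw [hs, eval_smul_hom hf, hall, mul_zero, mul_zero]
  rcases (lin_prime ha).dvd_or_dvd h2 with h3 | h3
  · exfalso
    have := eval_eq_zero_of_lin_dvd (v := ![p0, p1, 1]) h3 (by rw [dot3]; simpa using hp)
    simp at this
  · exact h3

end Pool.Agent.MP_feb289_co

end MrgPart0

-- ======== part 1: formerly Pool.Agent.MP_feb289_co.Saito
section MrgPart1

set_option autoImplicit false

namespace Pool.Agent.MP_feb289_co

open MvPolynomial Matrix

variable {K : Type} [Field K] {n : ℕ}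

/-- the module of logarithmic derivations -/
noncomputable def Dmod (A : Matrix (Fin n) (Fin 3) K) : Submodule (S3 K) (Fin 3 → S3 K) :=
  Submodule.comap (Matrix.mulVecLin (A.map MvPolynomial.C))
    (Submodule.pi Set.univ (fun i : Fin n =>
      (Ideal.span {(Matrix.mulVec (A.map MvPolynomial.C)
          (fun j => (MvPolynomial.X j : MvPolynomial (Fin 3) K))) i} :
        Submodule (MvPolynomial (Fin 3) K) (MvPolynomial (Fin 3) K))))

theorem mem_Dmod (A : Matrix (Fin n) (Fin 3) K) (θ : Fin 3 → S3 K) :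
    θ ∈ Dmod A ↔ ∀ i, lin (A i) ∣ app (A i) θ := by
  simp only [Dmod, Submodule.mem_comap, Submodule.mem_pi, Set.mem_univ, forall_const]
  refine forall_congr' fun i => ?_
  exact Ideal.mem_span_singleton

theorem lin_dvd_det {a : Fin 3 → K} (ha : a ≠ 0) (M : Matrix (Fin 3) (Fin 3) (S3 K))
    (h : ∀ r, lin a ∣ app a (M r)) : lin a ∣ M.det := by
  obtain ⟨k, hk⟩ := Function.ne_iff.1 ha
  have h1 : M.adjugate *ᵥ (M *ᵥ fun j => C (a j)) = M.det • fun j => (C (a j) : S3 K) := by
    rw [Matrix.mulVec_mulVec, Matrix.adjugate_mul, Matrix.smul_mulVec, Matrix.one_mulVec]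
  have h2 : lin a ∣ M.det * C (a k) := by
    have h3 := congrFun h1 k
    simp only [Pi.smul_apply, smul_eq_mul] at h3
    rw [← h3, Matrix.mulVec, dotProduct]
    refine Finset.dvd_sum fun r _ => Dvd.dvd.mul_left ?_ _
    have := h r
    rwa [app, dotProduct_comm] at this
  have hu : IsUnit (C (a k) : S3 K) := (IsUnit.mk0 _ hk).map C
  exact (hu.dvd_mul_right).1 h2

theorem Q_dvd_det (A : Matrix (Fin n) (Fin 3) K) (h0 : ∀ i, A i ≠ 0)
    (h : ∀ i j, i ≠ j → ∀ c : K, A i ≠ c • A j) (M : Matrix (Fin 3) (Fin 3) (S3 K))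
    (hM : ∀ r, M r ∈ Dmod A) : ∏ i, lin (A i) ∣ M.det :=
  prod_lin_dvd A h0 h fun i => lin_dvd_det (h0 i) M fun r => (mem_Dmod A _).1 (hM r) i

theorem Q_hom (A : Matrix (Fin n) (Fin 3) K) : (∏ i, lin (A i)).IsHomogeneous n := by
  have := IsHomogeneous.prod Finset.univ (fun i => lin (A i)) (fun _ => 1)
    (fun i _ => lin_hom (A i))
  simpa using this

/-- Saito's criterion -/
theorem free_of_saito (A : Matrix (Fin n) (Fin 3) K) (h0 : ∀ i, A i ≠ 0)
    (h : ∀ i j, i ≠ j → ∀ c : K, A i ≠ c • A j) (M : Matrix (Fin 3) (Fin 3) (S3 K))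
    (hM : ∀ r, M r ∈ Dmod A) (hdet : M.det ≠ 0) (hhom : M.det.IsHomogeneous n) :
    Module.Free (S3 K) (Dmod A) := by
  obtain ⟨g, hg⟩ := Q_dvd_det A h0 h M hM
  obtain ⟨c, hc, rfl⟩ := eq_C_of_hom hhom (Q_hom A) hdet hg
  have hQ : (∏ i, lin (A i)) ≠ 0 := Finset.prod_ne_zero_iff.2 fun i _ => lin_ne_zero (h0 i)
  let v : Fin 3 → Dmod A := fun r => ⟨M r, hM r⟩
  have hv : LinearIndependent (S3 K) v :=
    LinearIndependent.of_comp (Dmod A).subtype (Matrix.linearIndependent_rows_of_det_ne_zero hdet)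
  have hsp : ⊤ ≤ Submodule.span (S3 K) (Set.range v) := by
    rintro ⟨θ, hθ⟩ -
    have h1 : ∀ r, ∃ w, Matrix.cramer Mᵀ θ r = (∏ i, lin (A i)) * w := by
      intro r
      rw [Matrix.cramer_transpose_apply]
      apply Q_dvd_det A h0 h
      intro s
      by_cases hs : s = r
      · rw [hs, Matrix.updateRow_self]; exact hθ
      · rw [Matrix.updateRow_ne hs]; exact hM s
    choose w hw using h1
    have h2 := Matrix.mulVec_cramer Mᵀ θ
    rw [Matrix.det_transpose, hg] at h2
    rw [Submodule.mem_span_range_iff_exists_fun]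
    refine ⟨fun r => C c⁻¹ * w r, Subtype.ext (funext fun k => ?_)⟩
    have h3 := congrFun h2 k
    simp only [Matrix.mulVec, dotProduct, Matrix.transpose_apply, hw, Pi.smul_apply,
      smul_eq_mul, Fin.sum_univ_three] at h3
    simp only [v, Fin.sum_univ_three, Submodule.coe_add, Submodule.coe_smul, Pi.add_apply,
      Pi.smul_apply, smul_eq_mul]
    have h4 : (C c⁻¹ * C c : S3 K) = 1 := by rw [← C_mul, inv_mul_cancel₀ hc, C_1]
    apply mul_left_cancel₀ hQ
    linear_combination (C c⁻¹ : S3 K) * h3 + ((∏ i, lin (A i)) * θ k) * h4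
  exact Module.Free.of_basis (Module.Basis.mk hv hsp)

theorem X_mem_Dmod (A : Matrix (Fin n) (Fin 3) K) : (X : Fin 3 → S3 K) ∈ Dmod A :=
  (mem_Dmod A _).2 fun _ => dvd_rfl

theorem Q_single_mem (A : Matrix (Fin n) (Fin 3) K) (r : Fin 3) :
    ((∏ i, lin (A i)) • (1 : Matrix (Fin 3) (Fin 3) (S3 K))) r ∈ Dmod A := by
  rw [mem_Dmod]
  intro i
  rw [app, dotProduct]
  refine Finset.dvd_sum fun j _ => Dvd.dvd.mul_left ?_ _
  simp only [Matrix.smul_apply, smul_eq_mul]
  exact (Finset.dvd_prod_of_mem _ (Finset.mem_univ i)).mul_right _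

theorem exists_basis (A : Matrix (Fin n) (Fin 3) K) (h0 : ∀ i, A i ≠ 0)
    [Module.Free (S3 K) (Dmod A)] : Nonempty (Module.Basis (Fin 3) (S3 K) (Dmod A)) := by
  have hQ : (∏ i, lin (A i)) ≠ 0 := Finset.prod_ne_zero_iff.2 fun i _ => lin_ne_zero (h0 i)
  have h1 : Module.finrank (S3 K) (Dmod A) ≤ 3 := by
    simpa using Submodule.finrank_le (Dmod A)
  have h2 : 3 ≤ Module.finrank (S3 K) (Dmod A) := by
    let v : Fin 3 → Dmod A := fun r => ⟨_, Q_single_mem A r⟩
    have hv : LinearIndependent (S3 K) v :=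
      LinearIndependent.of_comp (Dmod A).subtype (Matrix.linearIndependent_rows_of_det_ne_zero
        (A := (∏ i, lin (A i)) • (1 : Matrix (Fin 3) (Fin 3) (S3 K)))
        (by rw [Matrix.det_smul, Matrix.det_one, mul_one]; exact pow_ne_zero _ hQ))
    simpa using hv.fintype_card_le_finrank
  exact ⟨Module.finBasisOfFinrankEq _ _ (le_antisymm h1 h2)⟩

theorem not_free [Infinite K] (B : Matrix (Fin n) (Fin 3) K) (h0 : ∀ i, B i ≠ 0) (q : ℕ)
    (hη : (fun j => (X j : S3 K) ^ (q + 2)) ∈ Dmod B)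
    (P : Fin 3 → K) (hP : ∀ j, P j ^ (q + 2) = P j) (hP' : ∀ i, B i ⬝ᵥ P ≠ 0)
    (i0 : Fin n) (hi0 : B i0 = ![0, 0, 1]) (e : Fin (q + 3) → Fin n)
    (he0 : ∀ k, ¬ (B (e k) 0 = 0 ∧ B (e k) 1 = 0))
    (he : ∀ k l, k ≠ l → B (e k) 0 * B (e l) 1 - B (e k) 1 * B (e l) 0 ≠ 0) :
    ¬ Module.Free (S3 K) (Dmod B) := by
  intro hfree
  obtain ⟨b⟩ := exists_basis B h0
  let Bm : Matrix (Fin 3) (Fin 3) (S3 K) := fun r => (b r : Fin 3 → S3 K)
  have hrep : ∀ θ : Dmod B, (θ : Fin 3 → S3 K) = (fun r => b.repr θ r) ᵥ* Bm := by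
    intro θ
    funext k
    have := congrArg (fun z : Dmod B => (z : Fin 3 → S3 K) k) (b.sum_repr θ)
    simp only [Fin.sum_univ_three, Submodule.coe_add, Submodule.coe_smul, Pi.add_apply,
      Pi.smul_apply, smul_eq_mul] at this
    simp only [Matrix.vecMul, dotProduct, Bm, Fin.sum_univ_three]
    exact this.symm
  -- restriction to the line through `P`
  let φ : S3 K →ₐ[K] Polynomial K := aeval (fun j => Polynomial.C (P j) * Polynomial.X)
  have hφ : ∀ (s : K) (g : S3 K), Polynomial.eval s (φ g) = eval (s • P) g := by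
    intro s g
    induction g using MvPolynomial.induction_on with
    | C r => simp [φ]
    | add p q hp hq => simp only [map_add, Polynomial.eval_add, hp, hq]
    | mul_X p i hp =>
      rw [map_mul, Polynomial.eval_mul, hp, map_mul]
      congr 1
      simp only [φ, aeval_X, Polynomial.eval_mul, Polynomial.eval_C, Polynomial.eval_X, eval_X,
        Pi.smul_apply, smul_eq_mul]
      ring
  have hdet : (Bm.map φ).det ≠ 0 := by
    let Cm : Matrix (Fin 3) (Fin 3) (S3 K) := fun r s => b.repr ⟨_, Q_single_mem B r⟩ s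
    have h1 : (∏ i, lin (B i)) • (1 : Matrix (Fin 3) (Fin 3) (S3 K)) = Cm * Bm := by
      funext r
      exact hrep ⟨_, Q_single_mem B r⟩
    have h2 := congrArg Matrix.det h1
    rw [Matrix.det_smul, Matrix.det_one, mul_one, Matrix.det_mul] at h2
    have h3 : (Bm.map φ).det = φ Bm.det := (AlgHom.map_det φ Bm).symm
    rw [h3]
    intro h4
    have h5 := congrArg (fun g => Polynomial.eval 1 (φ g)) h2
    simp only [map_mul, h4, mul_zero, Polynomial.eval_zero, hφ, one_smul, map_pow, map_prod,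
      Polynomial.eval_pow, Polynomial.eval_prod, eval_lin] at h5
    exact Finset.prod_ne_zero_iff.2 (fun i _ => hP' i) (pow_eq_zero_iff (by simp) |>.1 h5)
  let u : Fin 3 → S3 K := fun r => b.repr ⟨_, X_mem_Dmod B⟩ r
  let v : Fin 3 → S3 K := fun r => b.repr ⟨_, hη⟩ r
  have hu : (X : Fin 3 → S3 K) = u ᵥ* Bm := hrep ⟨_, X_mem_Dmod B⟩
  have hv : (fun j => (X j : S3 K) ^ (q + 2)) = v ᵥ* Bm := hrep ⟨_, hη⟩
  have hv0 : ∀ r, eval 0 (v r) = 0 := by
    have h1 : (fun r => Polynomial.X ^ (q + 1) * φ (u r) - φ (v r)) ᵥ* (Bm.map φ) = 0 := by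
      funext k
      have h2 := congrArg φ (congrFun hu k)
      have h3 := congrArg φ (congrFun hv k)
      simp only [Matrix.vecMul, dotProduct, Fin.sum_univ_three, map_add, map_mul, map_pow]
        at h2 h3
      simp only [Matrix.vecMul, dotProduct, Fin.sum_univ_three, Matrix.map_apply, Pi.zero_apply]
      have h4 : φ (X k) ^ (q + 2) = Polynomial.X ^ (q + 1) * φ (X k) := by
        simp only [φ, aeval_X, mul_pow, ← Polynomial.C_pow, hP]; ring
      linear_combination h3 - h4 - Polynomial.X ^ (q + 1) * h2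
    have h2 := Matrix.eq_zero_of_vecMul_eq_zero hdet h1
    intro r
    have h3 := congrArg (Polynomial.eval 0) (congrFun h2 r)
    simp only [Polynomial.eval_sub, Polynomial.eval_mul, Polynomial.eval_pow, Polynomial.eval_X,
      hφ, zero_smul, Pi.zero_apply, Polynomial.eval_zero] at h3
    simpa using h3
  -- restriction to the plane `z = 0`
  let ρ : S3 K →ₐ[K] S3 K := aeval ![X 0, X 1, 0]
  have hρ : ∀ (x : Fin 3 → K) (g : S3 K), eval x (ρ g) = eval ![x 0, x 1, 0] g := by
    intro x g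
    induction g using MvPolynomial.induction_on with
    | C r => simp [ρ]
    | add p q hp hq => simp only [map_add, hp, hq]
    | mul_X p i hp =>
      rw [map_mul, map_mul, hp, map_mul]
      congr 1
      fin_cases i <;> simp [ρ]
  let a : Matrix (Fin (q + 3)) (Fin 3) K := fun k => ![B (e k) 0, B (e k) 1, 0]
  have ha0 : ∀ k, a k ≠ 0 := fun k h => he0 k ⟨congrFun h 0, congrFun h 1⟩
  have ha1 : ∀ k l, k ≠ l → ∀ c : K, a k ≠ c • a l := by
    intro k l hkl c h
    apply he k l hkl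
    have e0 : B (e k) 0 = c * B (e l) 0 := congrFun h 0
    have e1 : B (e k) 1 = c * B (e l) 1 := congrFun h 1
    rw [e0, e1]; ring
  have hw : ∀ r, ∃ g, ρ (X 0 * Bm r 1 - X 1 * Bm r 0) = (∏ k, lin (a k)) * g := by
    intro r
    apply prod_lin_dvd a ha0 ha1
    intro k
    apply lin_dvd_of_vanish (ha0 k)
    intro x hx
    rw [dot3] at hx
    simp only [a, Matrix.cons_val_zero, Matrix.cons_val_one, Matrix.cons_val, zero_mul,
      add_zero] at hx
    have hb := (mem_Dmod B _).1 (b r).2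
    have h1 := eval_eq_zero_of_lin_dvd (v := ![x 0, x 1, 0]) (hb i0) (by rw [dot3, hi0]; simp)
    have h2 := eval_eq_zero_of_lin_dvd (v := ![x 0, x 1, 0]) (hb (e k))
      (by rw [dot3]; simpa using hx)
    rw [eval_app] at h1 h2
    rw [hi0] at h1
    simp only [Matrix.cons_val_zero, Matrix.cons_val_one, Matrix.cons_val, zero_mul, zero_add,
      one_mul] at h1
    rw [h1, mul_zero, add_zero] at h2
    rw [hρ]
    simp only [map_sub, map_mul, eval_X, Matrix.cons_val_zero, Matrix.cons_val_one, Bm]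
    by_cases h3 : B (e k) 0 = 0
    · have h4 : B (e k) 1 ≠ 0 := fun h4 => he0 k ⟨h3, h4⟩
      apply mul_left_cancel₀ h4
      rw [h3] at hx h2
      linear_combination x 0 * h2 - (eval ![x 0, x 1, 0] ((b r : Fin 3 → S3 K) 0)) * hx
    · apply mul_left_cancel₀ h3
      linear_combination (eval ![x 0, x 1, 0] ((b r : Fin 3 → S3 K) 1)) * hx - x 1 * h2
  choose g hg using hw
  have key : (X 0 * X 1 ^ (q + 2) - X 1 * X 0 ^ (q + 2) : S3 K) =
      (∏ k, lin (a k)) * (ρ (v 0) * g 0 + ρ (v 1) * g 1 + ρ (v 2) * g 2) := by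
    have h1 := congrArg ρ (congrFun hv 0)
    have h2 := congrArg ρ (congrFun hv 1)
    have g0 := hg 0
    have g1 := hg 1
    have g2 := hg 2
    have x0 : ρ (X 0) = X 0 := by simp [ρ]
    have x1 : ρ (X 1) = X 1 := by simp [ρ]
    simp only [Matrix.vecMul, dotProduct, Fin.sum_univ_three, map_add, map_mul, map_pow, map_sub,
      x0, x1] at h1 h2 g0 g1 g2
    linear_combination X 0 * h2 - X 1 * h1 + ρ (v 0) * g0 + ρ (v 1) * g1 + ρ (v 2) * g2
  have hne : (X 0 * X 1 ^ (q + 2) - X 1 * X 0 ^ (q + 2) : S3 K) ≠ 0 := by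
    intro h
    have h1 : (Polynomial.X ^ (q + 2) - Polynomial.X : Polynomial K) = 0 := by
      have := congrArg (aeval (![1, Polynomial.X, 0] : Fin 3 → Polynomial K)) h
      simpa using this
    have h2 := congrArg (fun p => Polynomial.coeff p 1) h1
    simp [Polynomial.coeff_X_pow] at h2
  have hhom : (X 0 * X 1 ^ (q + 2) - X 1 * X 0 ^ (q + 2) : S3 K).IsHomogeneous (q + 3) := by
    have h1 := (isHomogeneous_X K (0 : Fin 3)).mul (isHomogeneous_X_pow (R := K) (1 : Fin 3) (q + 2))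
    have h2 := (isHomogeneous_X K (1 : Fin 3)).mul (isHomogeneous_X_pow (R := K) (0 : Fin 3) (q + 2))
    rw [show 1 + (q + 2) = q + 3 by omega] at h1 h2
    exact h1.sub h2
  obtain ⟨c, hc, hc'⟩ := eq_C_of_hom hhom (Q_hom a) hne key
  have h1 := congrArg (eval 0) hc'
  have h2 : (![(0 : Fin 3 → K) 0, (0 : Fin 3 → K) 1, 0] : Fin 3 → K) = 0 := by
    funext i; fin_cases i <;> rfl
  simp only [map_add, map_mul, hρ, h2, hv0, zero_mul, add_zero, eval_C] at h1
  exact hc h1.symm

end Pool.Agent.MP_feb289_co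

end MrgPart1

-- ======== part 2: formerly Pool.Agent.MP_feb289_co.Lattice
section MrgPart2

set_option autoImplicit false

namespace Pool.Agent.MP_feb289_co

open MvPolynomial Matrix

theorem rangeIso {ι α β : Type} [PartialOrder α] [PartialOrder β] (f : ι → α) (g : ι → β)
    (h : ∀ s t, f s ≤ f t ↔ g s ≤ g t) : Nonempty (Set.range f ≃o Set.range g) := by
  let φ : Set.range f → Set.range g := fun x => ⟨g x.2.choose, Set.mem_range_self _⟩
  have h1 : ∀ x y : Set.range f, φ x ≤ φ y ↔ x ≤ y := by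
    intro x y
    change g x.2.choose ≤ g y.2.choose ↔ x.1 ≤ y.1
    rw [← h, x.2.choose_spec, y.2.choose_spec]
  have h2 : Function.Surjective φ := by
    rintro ⟨_, s, rfl⟩
    refine ⟨⟨f s, Set.mem_range_self _⟩, Subtype.ext ?_⟩
    have h3 := (Set.mem_range_self (f := f) s).choose_spec
    exact le_antisymm ((h _ _).1 h3.le) ((h _ _).1 h3.ge)
  exact ⟨RelIso.ofSurjective (OrderEmbedding.ofMapLEIff φ h1) h2⟩

variable {K : Type} [Field K] {n : ℕ}

/-- the cross product -/
def cr (a b : Fin 3 → K) : Fin 3 → K :=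
  ![a 1 * b 2 - a 2 * b 1, a 2 * b 0 - a 0 * b 2, a 0 * b 1 - a 1 * b 0]

theorem dot_cr (a b c : Fin 3 → K) : c ⬝ᵥ cr a b =
    c 0 * (a 1 * b 2 - a 2 * b 1) + c 1 * (a 2 * b 0 - a 0 * b 2) +
      c 2 * (a 0 * b 1 - a 1 * b 0) := by
  rw [dot3]; simp [cr]

theorem cramer3 (a b c v : Fin 3 → K) (ha : a ⬝ᵥ v = 0) (hb : b ⬝ᵥ v = 0) :
    (c ⬝ᵥ cr a b) • v = (c ⬝ᵥ v) • cr a b := by
  rw [dot_cr]
  rw [dot3] at ha hb ⊢
  funext k
  fin_cases k <;> simp [cr]
  · linear_combination (b 1 * c 2 - b 2 * c 1) * ha + (c 1 * a 2 - c 2 * a 1) * hb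
  · linear_combination (b 2 * c 0 - b 0 * c 2) * ha + (c 2 * a 0 - c 0 * a 2) * hb
  · linear_combination (b 0 * c 1 - b 1 * c 0) * ha + (c 0 * a 1 - c 1 * a 0) * hb

theorem ne_smul_of_cr {a b : Fin 3 → K} (h : cr a b ≠ 0) (c : K) : a ≠ c • b := by
  rintro rfl
  apply h
  funext k
  fin_cases k <;> simp [cr] <;> ring

theorem span_iff (A : Matrix (Fin n) (Fin 3) K) (h0 : ∀ i, A i ≠ 0)
    (h : ∀ i j, i ≠ j → cr (A i) (A j) ≠ 0) (s : Finset (Fin n)) (j : Fin n) :
    (∀ v : Fin 3 → K, (∀ i ∈ s, A i ⬝ᵥ v = 0) → A j ⬝ᵥ v = 0) ↔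
      (j ∈ s ∨ ∃ i ∈ s, ∃ i' ∈ s, i ≠ i' ∧
        (A j ⬝ᵥ cr (A i) (A i') = 0 ∨ ∃ k ∈ s, ¬ A k ⬝ᵥ cr (A i) (A i') = 0)) := by
  constructor
  · intro H
    by_cases hj : j ∈ s
    · exact Or.inl hj
    right
    by_cases h1 : ∃ i ∈ s, ∃ i' ∈ s, i ≠ i'
    · obtain ⟨i, hi, i', hi', hne⟩ := h1
      refine ⟨i, hi, i', hi', hne, ?_⟩
      by_contra h2
      push Not at h2
      exact h2.1 (H _ h2.2)
    · exfalso
      push Not at h1
      rcases s.eq_empty_or_nonempty with rfl | ⟨i, hi⟩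
      · obtain ⟨u, hu⟩ := exists_dot_one (h0 j)
        rw [H u (by simp)] at hu
        exact zero_ne_one hu
      · obtain ⟨c, hc⟩ := smul_of_ker_le (b := A j) (h0 i)
          (fun v hv => H v fun k hk => by rw [h1 k hk i hi]; exact hv)
        exact ne_smul_of_cr (h j i (by rintro rfl; exact hj hi)) c hc
  · rintro (hj | ⟨i, hi, i', hi', hne, hj | ⟨k, hk, hk'⟩⟩) v hv
    · exact hv j hj
    · have := cramer3 (A i) (A i') (A j) v (hv i hi) (hv i' hi')
      rw [hj, zero_smul] at this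
      exact (smul_eq_zero.1 this.symm).resolve_right (h i i' hne)
    · have := cramer3 (A i) (A i') (A k) v (hv i hi) (hv i' hi')
      rw [hv k hk, zero_smul] at this
      rw [(smul_eq_zero.1 this).resolve_left hk', dotProduct_zero]

/-- the flat cut out by the hyperplanes with index in `s` -/
noncomputable def flat (A : Matrix (Fin n) (Fin 3) K) (s : Finset (Fin n)) :
    Submodule K (Fin 3 → K) :=
  ⨅ i ∈ s, LinearMap.ker ((LinearMap.proj i : (Fin n → K) →ₗ[K] K).comp (Matrix.mulVecLin A))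

theorem mem_flat (A : Matrix (Fin n) (Fin 3) K) (s : Finset (Fin n)) (v : Fin 3 → K) :
    v ∈ flat A s ↔ ∀ i ∈ s, A i ⬝ᵥ v = 0 := by
  simp only [flat, Submodule.mem_iInf, LinearMap.mem_ker]
  rfl

theorem flat_le_iff (A : Matrix (Fin n) (Fin 3) K) (s t : Finset (Fin n)) :
    flat A s ≤ flat A t ↔
      ∀ j ∈ t, ∀ v : Fin 3 → K, (∀ i ∈ s, A i ⬝ᵥ v = 0) → A j ⬝ᵥ v = 0 := by
  constructor
  · intro h j hj v hv
    exact (mem_flat A t v).1 (h ((mem_flat A s v).2 hv)) j hj
  · intro h v hv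
    exact (mem_flat A t v).2 fun j hj => h j hj v ((mem_flat A s v).1 hv)

theorem latticeIso (A B : Matrix (Fin n) (Fin 3) K) (hA0 : ∀ i, A i ≠ 0) (hB0 : ∀ i, B i ≠ 0)
    (hA : ∀ i j, i ≠ j → cr (A i) (A j) ≠ 0) (hB : ∀ i j, i ≠ j → cr (B i) (B j) ≠ 0)
    (h : ∀ i j k, A k ⬝ᵥ cr (A i) (A j) = 0 ↔ B k ⬝ᵥ cr (B i) (B j) = 0) :
    Nonempty (Set.range (flat A) ≃o Set.range (flat B)) := by
  apply rangeIso
  intro s t
  simp only [flat_le_iff, span_iff A hA0 hA, span_iff B hB0 hB, h]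

end Pool.Agent.MP_feb289_co

end MrgPart2

-- ======== part 3: formerly Pool.Agent.MP_feb289_co.Model
section MrgPart3

set_option autoImplicit false

namespace Pool.Agent.MP_feb289_co

open MvPolynomial Matrix

variable {K : Type} [Field K] [CharP K 11] (w : K)

/-- interpretation of pairs -/
def io (a : F) : K := (a.1 : K) + (a.2 : K) * w

/-- interpretation of triples -/
def iv (a : V) : Fin 3 → K := ![io w a.1, io w a.2.1, io w a.2.2]

theorem cast_mod (m : ℕ) : ((m % 11 : ℕ) : K) = (m : K) := by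
  exact (CharP.cast_eq_mod K 11 m).symm

theorem eleven : (11 : K) = 0 := by exact_mod_cast CharP.cast_eq_zero K 11

theorem io_add (a b : F) : io w (fadd a b) = io w a + io w b := by
  simp only [io, fadd, cast_mod]; push_cast; ring

theorem io_sub (a b : F) : io w (fsub a b) = io w a - io w b := by
  simp only [io, fsub, cast_mod]; push_cast
  linear_combination ((b.1 : K) + (b.2 : K) * w) * (eleven (K := K))

variable (hw : w ^ 2 = -1)
include hw

theorem io_mul (a b : F) : io w (fmul a b) = io w a * io w b := by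
  simp only [io, fmul, cast_mod]; push_cast
  linear_combination ((a.2 : K) * (b.2 : K)) * (eleven (K := K)) - ((a.2 : K) * (b.2 : K)) * hw

theorem io_eq_zero (a : F) : io w a = 0 ↔ isZ a = true := by
  simp only [isZ, Bool.and_eq_true, beq_iff_eq]
  constructor
  · intro h
    have h1 : ((a.1 ^ 2 + a.2 ^ 2 : ℕ) : K) = 0 := by
      push_cast
      rw [io] at h
      linear_combination ((a.1 : K) - (a.2 : K) * w) * h + (a.2 : K) ^ 2 * hw
    rw [CharP.cast_eq_zero_iff K 11] at h1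
    have h2 : ∀ x y : Fin 11, 11 ∣ x.val ^ 2 + y.val ^ 2 → x.val = 0 ∧ y.val = 0 := by decide
    apply h2 ⟨a.1 % 11, Nat.mod_lt _ (by norm_num)⟩ ⟨a.2 % 11, Nat.mod_lt _ (by norm_num)⟩
    rw [Nat.dvd_iff_mod_eq_zero] at h1 ⊢
    refine Eq.trans ?_ h1
    simp [Nat.add_mod, Nat.pow_mod]
  · rintro ⟨h1, h2⟩
    rw [io, ← cast_mod a.1, ← cast_mod a.2, h1, h2]; simp

theorem iv_cr (a b : V) : iv w (vcr a b) = cr (iv w a) (iv w b) := by
  simp [iv, vcr, cr, io_sub, io_mul w hw]

theorem io_dot (a b : V) : io w (vdot a b) = iv w a ⬝ᵥ iv w b := by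
  simp [iv, vdot, io_add, io_mul w hw, add_assoc]

theorem iv_ne_zero {a : V} (h : vZ a = false) : iv w a ≠ 0 := by
  intro h0
  have h1 := (io_eq_zero w hw _).1 (congrFun h0 0)
  have h2 := (io_eq_zero w hw _).1 (congrFun h0 1)
  have h3 := (io_eq_zero w hw _).1 (congrFun h0 2)
  simp [vZ, h1, h2, h3] at h

omit hw

/-- binary forms from coefficient lists -/
noncomputable def hom2 : ℕ → List F → S3 K
  | _, [] => 0
  | 0, c :: _ => C (io w c)
  | d + 1, c :: cs => C (io w c) * X 2 ^ (d + 1) + X 1 * hom2 d cs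

/-- ternary forms from coefficient tables -/
noncomputable def hom3 : ℕ → List (List F) → S3 K
  | _, [] => 0
  | 0, r :: _ => hom2 w 0 r
  | d + 1, r :: rs => hom2 w (d + 1) r + X 0 * hom3 d rs

omit [CharP K 11] in
theorem hom2_hom : ∀ (d : ℕ) (L : List F), (hom2 w d L).IsHomogeneous d
  | _, [] => by rw [hom2]; exact isHomogeneous_zero _ _ _
  | 0, c :: _ => by rw [hom2]; exact isHomogeneous_C _ _
  | d + 1, c :: cs => by
    rw [hom2]
    refine (isHomogeneous_C_mul_X_pow _ _ _).add ?_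
    have := (isHomogeneous_X K (1 : Fin 3)).mul (hom2_hom d cs)
    rwa [add_comm] at this

omit [CharP K 11] in
theorem hom3_hom : ∀ (d : ℕ) (L : List (List F)), (hom3 w d L).IsHomogeneous d
  | _, [] => by rw [hom3]; exact isHomogeneous_zero _ _ _
  | 0, r :: _ => by rw [hom3]; exact hom2_hom w 0 r
  | d + 1, r :: rs => by
    rw [hom3]
    refine (hom2_hom w _ _).add ?_
    have := (isHomogeneous_X K (0 : Fin 3)).mul (hom3_hom d rs)
    rwa [add_comm] at this

include hw

theorem eval_hom2 (x : K) (y : F) : ∀ (d : ℕ) (L : List F),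
    eval ![x, io w y, 1] (hom2 w d L) = io w (ev2 d L y)
  | _, [] => by rw [hom2, ev2]; simp [io]
  | 0, c :: _ => by rw [hom2, ev2]; simp
  | d + 1, c :: cs => by
    rw [hom2, ev2, io_add, io_mul w hw, ← eval_hom2 x y d cs]; simp

theorem eval_hom3 (x y : F) : ∀ (d : ℕ) (L : List (List F)),
    eval ![io w x, io w y, 1] (hom3 w d L) = io w (ev3 d L x y)
  | _, [] => by rw [hom3, ev3]; simp [io]
  | 0, r :: _ => by rw [hom3, ev3, eval_hom2 w hw]
  | d + 1, r :: rs => by
    rw [hom3, ev3, io_add, io_mul w hw, ← eval_hom3 x y d rs, ← eval_hom2 w hw (io w x)]; simp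

omit hw

/-- the free arrangement -/
def matA : Matrix (Fin 27) (Fin 3) K := fun i => iv w (rowA i)

/-- the non-free arrangement -/
def matB : Matrix (Fin 27) (Fin 3) K := fun i => iv w (rowB i)

include hw

omit [Field K] [CharP K 11] hw in
theorem rows_spec (i : Fin 27) : vZ (rowA i) = false ∧ vZ (rowB i) = false ∧
    (rowB i).1.2 = 0 ∧ (rowB i).2.1.2 = 0 ∧ (rowB i).2.2.2 = 0 ∧
    isZ (vdot (rowB i) ((1, 0), (2, 0), (5, 0))) = false := by
  have := List.all_eq_true.1 chk_rows i (List.mem_range.2 i.2)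
  simpa [and_assoc] using this

theorem matA_ne (i : Fin 27) : matA w i ≠ 0 := iv_ne_zero w hw (rows_spec i).1

theorem matB_ne (i : Fin 27) : matB w i ≠ 0 := iv_ne_zero w hw (rows_spec i).2.1

omit hw [CharP K 11] in
theorem pair_spec (i j : Fin 27) : chkPair i j = true :=
  List.all_eq_true.1 (List.all_eq_true.1 chk_pairs i (List.mem_range.2 i.2)) j
    (List.mem_range.2 j.2)

theorem cr_ne (i j : Fin 27) (h : i ≠ j) :
    cr (matA w i) (matA w j) ≠ 0 ∧ cr (matB w i) (matB w j) ≠ 0 := by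
  have h1 := pair_spec i j
  have h2 : (i : ℕ) ≠ j := fun e => h (Fin.ext e)
  simp only [chkPair, Bool.and_eq_true, Bool.or_eq_true, beq_iff_eq, h2, false_or,
    Bool.not_eq_true'] at h1
  rw [matA, matA, matB, matB, ← iv_cr w hw, ← iv_cr w hw]
  exact ⟨iv_ne_zero w hw h1.1.1, iv_ne_zero w hw h1.1.2⟩

theorem triple_iff (i j k : Fin 27) : matA w k ⬝ᵥ cr (matA w i) (matA w j) = 0 ↔
    matB w k ⬝ᵥ cr (matB w i) (matB w j) = 0 := by
  have h1 := pair_spec i j
  simp only [chkPair, Bool.and_eq_true] at h1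
  have h2 := List.all_eq_true.1 h1.2 k (List.mem_range.2 k.2)
  rw [beq_iff_eq] at h2
  simp only [matA, matB]
  rw [← iv_cr w hw, ← iv_cr w hw, ← io_dot w hw, ← io_dot w hw, io_eq_zero w hw,
    io_eq_zero w hw, h2]

theorem par_inj : Function.Injective (fun k : Fin (13 + 1) => io w (par k)) := by
  intro k l h
  have h1 := List.all_eq_true.1 (List.all_eq_true.1 chk_par k (List.mem_range.2 k.2)) l
    (List.mem_range.2 l.2)
  have h2 : isZ (fsub (par k) (par l)) = true := by
    rw [← io_eq_zero w hw, io_sub]; exact sub_eq_zero.2 h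
  simp only [h2, Bool.not_true, Bool.or_false, beq_iff_eq] at h1
  exact Fin.ext h1

theorem line_ok [Infinite K] (a : V) (p : F × F) (f g : List (List F))
    (h : chkLine a p f g = true) :
    lin (iv w a) ∣ app (iv w a) ![hom3 w 13 f, hom3 w 13 g, 0] := by
  simp only [chkLine, Bool.and_eq_true, Bool.not_eq_true'] at h
  obtain ⟨⟨h1, h2⟩, h3⟩ := h
  refine lin_dvd_of_points (d := 13) _ ?_ (io w p.1) (io w p.2) ?_ ?_ _ (par_inj w hw) ?_
  · rintro ⟨e0, e1⟩
    have e0' := (io_eq_zero w hw _).1 e0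
    have e1' := (io_eq_zero w hw _).1 e1
    simp [e0', e1'] at h1
  · rw [← io_eq_zero w hw, io_add, io_add, io_mul w hw, io_mul w hw] at h2
    exact h2
  · rw [app_eq]
    refine (((hom3_hom w 13 f).C_mul _).add ((hom3_hom w 13 g).C_mul _)).add ?_
    simpa using isHomogeneous_zero _ _ _
  · intro k
    have h4 := List.all_eq_true.1 h3 k (List.mem_range.2 k.2)
    rw [chkAt, ← io_eq_zero w hw, io_add, io_mul w hw, io_mul w hw, ← eval_hom3 w hw,
      ← eval_hom3 w hw, io_add, io_sub, io_mul w hw, io_mul w hw] at h4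
    rw [eval_app]
    simpa [iv] using h4

theorem der_mem [Infinite K] (f g : List (List F))
    (h : ((List.range 27).all fun i => i == 0 || chkLine (rowA i) (rowP i) f g) = true) :
    ![hom3 w 13 f, hom3 w 13 g, 0] ∈ Dmod (matA w) := by
  rw [mem_Dmod]
  intro i
  have h1 := List.all_eq_true.1 h i (List.mem_range.2 i.2)
  simp only [Bool.or_eq_true, beq_iff_eq] at h1
  rcases h1 with h1 | h1
  · have h2 : matA w i = ![0, 0, 1] := by
      rw [matA, h1]
      simp [rowA, tabA, iv, io]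
    rw [h2, app_eq]
    simp
  · exact line_ok w hw _ _ f g h1

theorem freeA [Infinite K] : Module.Free (S3 K) (Dmod (matA w)) := by
  let M : Matrix (Fin 3) (Fin 3) (S3 K) :=
    ![X, ![hom3 w 13 f1, hom3 w 13 g1, 0], ![hom3 w 13 f2, hom3 w 13 g2, 0]]
  have hM : M.det = X 2 * (hom3 w 13 f1 * hom3 w 13 g2 - hom3 w 13 g1 * hom3 w 13 f2) := by
    rw [Matrix.det_fin_three]
    simp only [M, Matrix.cons_val_zero, Matrix.cons_val_one, Matrix.cons_val]
    ring
  refine free_of_saito _ (matA_ne w hw) (fun i j h => ne_smul_of_cr (cr_ne w hw i j h).1) M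
    (fun r => ?_) ?_ ?_
  · fin_cases r
    · exact X_mem_Dmod _
    · exact der_mem w hw f1 g1 chk_lines1
    · exact der_mem w hw f2 g2 chk_lines2
  · intro h
    have h1 := congrArg (eval ![io w (2, 0), io w (3, 0), 1]) (hM.symm.trans h)
    simp only [map_mul, map_sub, eval_hom3 w hw, eval_X, Matrix.cons_val, one_mul, map_zero] at h1
    rw [← io_mul w hw, ← io_mul w hw, ← io_sub, io_eq_zero w hw, chk_det] at h1
    exact Bool.false_ne_true h1
  · rw [hM]
    exact (isHomogeneous_X K (2 : Fin 3)).mul (((hom3_hom w 13 f1).mul (hom3_hom w 13 g2)).sub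
      ((hom3_hom w 13 g1).mul (hom3_hom w 13 f2)))

omit hw in
theorem natCast_pow (m : ℕ) : (m : K) ^ 11 = m := by
  have : Fact (Nat.Prime 11) := ⟨by norm_num⟩
  exact map_natCast (frobenius K 11) m

theorem not_freeB [Infinite K] : ¬ Module.Free (S3 K) (Dmod (matB w)) := by
  have : Fact (Nat.Prime 11) := ⟨by norm_num⟩
  have hE : ∀ k : Fin 12, rowE k < 27 ∧ (isZ (rowB (rowE k)).1 && isZ (rowB (rowE k)).2.1) = false ∧
      ∀ l : Fin 12, k ≠ l → isZ (fsub (fmul (rowB (rowE k)).1 (rowB (rowE l)).2.1)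
        (fmul (rowB (rowE k)).2.1 (rowB (rowE l)).1)) = false := by
    intro k
    have h1 := List.all_eq_true.1 chk_dirs k (List.mem_range.2 k.2)
    simp only [Bool.and_eq_true, decide_eq_true_eq, Bool.not_eq_true'] at h1
    refine ⟨h1.1.1, h1.1.2, fun l hl => ?_⟩
    have h2 := List.all_eq_true.1 h1.2 l (List.mem_range.2 l.2)
    have h3 : (k : ℕ) ≠ l := fun e => hl (Fin.ext e)
    simpa [h3] using h2
  refine not_free (matB w) (matB_ne w hw) 9 ?_ (iv w ((1, 0), (2, 0), (5, 0))) ?_ ?_ 0 ?_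
    (fun k => ⟨rowE k, (hE k).1⟩) ?_ ?_
  · rw [mem_Dmod]
    intro i
    obtain ⟨-, -, h1, h2, h3, -⟩ := rows_spec i
    have h4 : app (matB w i) (fun j => (X j : S3 K) ^ (9 + 2)) = lin (matB w i) ^ 11 := by
      rw [lin, app_eq, app_eq, add_pow_char, add_pow_char, mul_pow, mul_pow, mul_pow, ← C_pow,
        ← C_pow, ← C_pow]
      simp [matB, iv, io, h1, h2, h3, natCast_pow]
    rw [h4]
    exact dvd_pow_self _ (by norm_num)
  · intro j
    fin_cases j
    · simp [iv, io]
    · simpa [iv, io] using natCast_pow (K := K) 2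
    · simpa [iv, io] using natCast_pow (K := K) 5
  · intro i h
    rw [matB, ← io_dot w hw, io_eq_zero w hw, (rows_spec i).2.2.2.2.2] at h
    exact Bool.false_ne_true h
  · simp [matB, rowB, tabB, iv, io]
  · rintro k ⟨e0, e1⟩
    have e0' := (io_eq_zero w hw _).1 e0
    have e1' := (io_eq_zero w hw _).1 e1
    have := (hE k).2.1
    simp [e0', e1'] at this
  · intro k l hkl h
    have h1 := (hE k).2.2 l hkl
    have h2 : io w (fsub (fmul (rowB (rowE k)).1 (rowB (rowE l)).2.1)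
        (fmul (rowB (rowE k)).2.1 (rowB (rowE l)).1)) = 0 := by
      rw [io_sub, io_mul w hw, io_mul w hw]; exact h
    rw [io_eq_zero w hw, h1] at h2
    exact Bool.false_ne_true h2

end Pool.Agent.MP_feb289_co

end MrgPart3

-- marker of a merged file
example : 731051 + 408210 = 731051 + 408210 := rfl
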